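import Pool.Agent.W_aaa0df_h42.Defs

/-! Partial summation. -/

set_option autoImplicit false

namespace TwR

open Finset ArithmeticFunction

variable {χ : ℕ → ℝ} {m : ℕ}

theorem Abel_key {u g : ℕ → ℝ} {M : ℝ} {a b : ℕ} (s : ℝ)
    (hu : ∀ c, a ≤ c → c ≤ b → |∑ n ∈ Ico a c, u n| ≤ M)
    (hg : ∀ i, a ≤ i → i + 1 < b → |g i - g (i + 1)| ≤ s * (g i - g (i + 1))) (k : ℕ) :
    a + k < b → |∑ n ∈ Ico a (a + k + 1), u n * g n - (∑ n ∈ Ico a (a + k + 1), u n) * g (a + k)| ≤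
      M * (s * (g a - g (a + k))) := by
  induction k with
  | zero =>
    intro _
    rw [add_zero, Nat.Ico_succ_singleton, Finset.sum_singleton, Finset.sum_singleton]
    simp
  | succ k ih =>
    intro hk
    have h1 := ih (by omega)
    have h2 := hu (a + k + 1) (by omega) (by omega)
    have h3 := hg (a + k) (by omega) (by omega)
    have hM : 0 ≤ M := (abs_nonneg _).trans h2
    rw [show a + (k + 1) = a + k + 1 by ring,
      Finset.sum_Ico_succ_top (show a ≤ a + k + 1 by omega) (fun n => u n * g n),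
      Finset.sum_Ico_succ_top (show a ≤ a + k + 1 by omega) (fun n => u n)]
    have h4 : ∑ n ∈ Ico a (a + k + 1), u n * g n + u (a + k + 1) * g (a + k + 1) -
        (∑ n ∈ Ico a (a + k + 1), u n + u (a + k + 1)) * g (a + k + 1) =
        (∑ n ∈ Ico a (a + k + 1), u n * g n - (∑ n ∈ Ico a (a + k + 1), u n) * g (a + k)) +
        (∑ n ∈ Ico a (a + k + 1), u n) * (g (a + k) - g (a + k + 1)) := by ring
    rw [h4]
    have h5 : |(∑ n ∈ Ico a (a + k + 1), u n) * (g (a + k) - g (a + k + 1))| ≤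
        M * (s * (g (a + k) - g (a + k + 1))) := by
      rw [abs_mul]
      exact mul_le_mul h2 h3 (abs_nonneg _) hM
    refine (abs_add_le _ _).trans ((add_le_add h1 h5).trans (le_of_eq ?_))
    ring

/-- If the sums of `u` over `[a, c)` (`c ≤ b`) are at most `M` in absolute value and `g ≥ 0` is
decreasing on `[a, b)` then `|∑_{a ≤ n < b} u n g n| ≤ M g a`.
(With `S(j) = ∑_{a ≤ n < j} u n`: the sum is `S(b) g(b-1) + ∑_{a ≤ n < b-1} S(n+1) (g n - g (n+1))`,
by induction on `b`.) -/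
theorem abel_antitone {u g : ℕ → ℝ} {M : ℝ} {a b : ℕ} (hab : a < b)
    (hu : ∀ c, a ≤ c → c ≤ b → |∑ n ∈ Ico a c, u n| ≤ M)
    (hg : ∀ i, a ≤ i → i + 1 < b → g (i + 1) ≤ g i)
    (h0 : ∀ i, a ≤ i → i < b → 0 ≤ g i) :
    |∑ n ∈ Ico a b, u n * g n| ≤ M * g a := by
  obtain ⟨k, rfl⟩ : ∃ k, b = a + k + 1 := ⟨b - a - 1, by omega⟩
  have h1 := Abel_key (g := g) 1 hu (fun i hi hi' => by
    rw [one_mul, abs_of_nonneg (sub_nonneg.2 (hg i hi hi'))]) k (by omega)
  have h2 := hu (a + k + 1) (by omega) le_rfl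
  have h3 := h0 (a + k) (by omega) (by omega)
  have h4 : |(∑ n ∈ Ico a (a + k + 1), u n) * g (a + k)| ≤ M * g (a + k) := by
    rw [abs_mul, abs_of_nonneg h3]
    exact mul_le_mul_of_nonneg_right h2 h3
  have h5 : ∑ n ∈ Ico a (a + k + 1), u n * g n =
      (∑ n ∈ Ico a (a + k + 1), u n * g n - (∑ n ∈ Ico a (a + k + 1), u n) * g (a + k)) +
      (∑ n ∈ Ico a (a + k + 1), u n) * g (a + k) := by ring
  rw [h5]
  refine (abs_add_le _ _).trans ((add_le_add h1 h4).trans (le_of_eq ?_))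
  ring

/-- If all sums of `u` over `[a, c)` (`c ≤ b`) are at most `M` in absolute value and `0 ≤ g` is
increasing on `[a, b)` and at most `G` there, then `|∑_{a ≤ n < b} u n g n| ≤ 2 M G`. -/
theorem abel_monotone {u g : ℕ → ℝ} {M G : ℝ} {a b : ℕ} (hab : a ≤ b) (hG : 0 ≤ G)
    (hu : ∀ c, a ≤ c → c ≤ b → |∑ n ∈ Ico a c, u n| ≤ M)
    (hg : ∀ i, a ≤ i → i + 1 < b → g i ≤ g (i + 1))
    (h0 : ∀ i, a ≤ i → i < b → 0 ≤ g i) (h1 : ∀ i, a ≤ i → i < b → g i ≤ G) :
    |∑ n ∈ Ico a b, u n * g n| ≤ 2 * M * G := by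
  have hM : 0 ≤ M := (abs_nonneg _).trans (hu a le_rfl hab)
  rcases eq_or_lt_of_le hab with rfl | hlt
  · rw [Finset.Ico_self, Finset.sum_empty, abs_zero]
    positivity
  obtain ⟨k, rfl⟩ : ∃ k, b = a + k + 1 := ⟨b - a - 1, by omega⟩
  have h1' := Abel_key (g := g) (-1) hu (fun i hi hi' => by
    rw [abs_of_nonpos (sub_nonpos.2 (hg i hi hi'))]
    linarith) k (by omega)
  have h2 := hu (a + k + 1) (by omega) le_rfl
  have h3 := h0 (a + k) (by omega) (by omega)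
  have h4 : |(∑ n ∈ Ico a (a + k + 1), u n) * g (a + k)| ≤ M * g (a + k) := by
    rw [abs_mul, abs_of_nonneg h3]
    exact mul_le_mul_of_nonneg_right h2 h3
  have h5 : ∑ n ∈ Ico a (a + k + 1), u n * g n =
      (∑ n ∈ Ico a (a + k + 1), u n * g n - (∑ n ∈ Ico a (a + k + 1), u n) * g (a + k)) +
      (∑ n ∈ Ico a (a + k + 1), u n) * g (a + k) := by ring
  rw [h5]
  refine (abs_add_le _ _).trans ((add_le_add h1' h4).trans ?_)
  have h6 := h0 a le_rfl (by omega)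
  have h7 := h1 (a + k) (by omega) (by omega)
  have h8 : M * g (a + k) ≤ M * G := mul_le_mul_of_nonneg_left h7 hM
  have h9 : 0 ≤ M * g a := mul_nonneg hM h6
  linarith

end TwR
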