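import Pool.Agent.W_aaa0df_h42.ConvA

/-! The summatory function `F`. -/

set_option autoImplicit false

namespace TwR

open Finset ArithmeticFunction

variable {χ : ℕ → ℝ} {m : ℕ}

theorem F_mono (h : RChar χ m) {M N : ℕ} (hMN : M ≤ N) : F χ M ≤ F χ N := by
  unfold F
  apply Finset.sum_le_sum_of_subset_of_nonneg
  · exact Finset.Ioc_subset_Ioc_right hMN
  · intro i _ _
    exact f_nonneg h i

/-- `ArithmeticFunction.sum_Ioc_mul_zeta_eq_sum`. -/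
theorem F_eq (h : RChar χ m) (N : ℕ) :
    F χ N = ∑ a ∈ Ioc 0 N, χ a * ((N / a : ℕ) : ℝ) := by
  unfold F f
  rw [ArithmeticFunction.sum_Ioc_mul_zeta_eq_sum]
  refine Finset.sum_congr rfl fun a _ => ?_
  rw [X_apply h]

/-- `|χ| ≤ 1` and the harmonic sum. -/
theorem F_le (h : RChar χ m) (N : ℕ) : F χ N ≤ N * (1 + Real.log N) := by
  rw [F_eq h]
  have h1 : ∑ a ∈ Ioc 0 N, χ a * ((N / a : ℕ) : ℝ) ≤ ∑ a ∈ Ioc 0 N, (N : ℝ) * (a : ℝ)⁻¹ := by
    refine Finset.sum_le_sum fun a ha => ?_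
    have ha0 : 0 < a := (Finset.mem_Ioc.mp ha).1
    have h2 : χ a ≤ 1 := le_trans (le_abs_self _) (RChar.abs_le h a)
    have h3 : ((N / a : ℕ) : ℝ) ≤ (N : ℝ) / a := Nat.cast_div_le
    have h4 : (0 : ℝ) ≤ ((N / a : ℕ) : ℝ) := Nat.cast_nonneg _
    calc χ a * ((N / a : ℕ) : ℝ) ≤ 1 * ((N / a : ℕ) : ℝ) := mul_le_mul_of_nonneg_right h2 h4
      _ ≤ (N : ℝ) * (a : ℝ)⁻¹ := by rw [one_mul, ← div_eq_mul_inv]; exact h3
  refine h1.trans ?_
  rw [← Finset.mul_sum]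
  refine mul_le_mul_of_nonneg_left ?_ (Nat.cast_nonneg _)
  have h5 := harmonic_le_one_add_log N
  rw [harmonic_eq_sum_Icc] at h5
  push_cast at h5
  have h6 : Finset.Icc 1 N = Finset.Ioc 0 N := by
    ext x; simp [Finset.mem_Icc, Finset.mem_Ioc]; omega
  rw [h6] at h5
  exact h5

end TwR
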