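import Pool.Agent.W_aaa0df_h42.Abel
import Pool.Agent.W_aaa0df_h42.ConvB

/-! Approximation of `F(y/l)`. -/

set_option autoImplicit false

namespace TwR

open Finset ArithmeticFunction

variable {χ : ℕ → ℝ} {m : ℕ}

lemma AppA_floor {y l a : ℕ} (hl : 1 ≤ l) (ha : 1 ≤ a) :
    |((y / l / a : ℕ) : ℝ) - (y : ℝ) / l / a| ≤ 1 := by
  have hla : 0 < l * a := Nat.mul_pos hl ha
  have h1 : y / l / a = y / (l * a) := Nat.div_div_eq_div_mul y l a
  have h2 : (y : ℝ) / l / a = (y : ℝ) / ((l * a : ℕ) : ℝ) := by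
    rw [div_div]
    push_cast
    ring
  rw [h1, h2]
  have hpos : (0 : ℝ) < ((l * a : ℕ) : ℝ) := by exact_mod_cast hla
  have h3 : ((y / (l * a) : ℕ) : ℝ) ≤ (y : ℝ) / ((l * a : ℕ) : ℝ) := Nat.cast_div_le
  have h4 : (y : ℝ) / ((l * a : ℕ) : ℝ) ≤ ((y / (l * a) : ℕ) : ℝ) + 1 := by
    rw [div_le_iff₀ hpos]
    have h5 : y < l * a * (y / (l * a) + 1) := by
      have := Nat.lt_mul_div_succ y hla
      exact this
    have h6 : y ≤ (y / (l * a) + 1) * (l * a) := by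
      rw [mul_comm]
      exact h5.le
    exact_mod_cast h6
  rw [abs_le]
  constructor <;> linarith

/-- `F(⌊y/l⌋) = (y/l) L_A + O(A + m y/(l A))` for `A ≤ ⌊y/l⌋`. (Write
`F(⌊y/l⌋) = ∑_{a ≤ y/l} χ(a) ⌊y/(l a)⌋` by `F_eq`; the part `a ≤ A` is `(y/l) L_A` up to `A`, the
part `a > A` is at most `m ⌊y/(l (A+1))⌋` by `abel_antitone`.) -/
theorem F_approx (h : RChar χ m) {A y l : ℕ} (hA : 1 ≤ A) (hl : 1 ≤ l) (hy : A ≤ y / l) :
    |F χ (y / l) - (y : ℝ) / l * L χ A| ≤ A + m * ((y : ℝ) / (l * A)) := by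
  set N := y / l with hN
  have hlR : (0 : ℝ) < (l : ℝ) := by exact_mod_cast hl
  have hAR : (0 : ℝ) < (A : ℝ) := by exact_mod_cast hA
  have hmR : (0 : ℝ) ≤ (m : ℝ) := Nat.cast_nonneg m
  have hsplit : ∑ a ∈ Ioc 0 N, χ a * ((N / a : ℕ) : ℝ) =
      ∑ a ∈ Ioc 0 A, χ a * ((N / a : ℕ) : ℝ) + ∑ a ∈ Ioc A N, χ a * ((N / a : ℕ) : ℝ) :=
    (Finset.sum_Ioc_consecutive (fun a => χ a * ((N / a : ℕ) : ℝ)) (Nat.zero_le A) hy).symm
  have h1 : |∑ a ∈ Ioc 0 A, χ a * ((N / a : ℕ) : ℝ) - (y : ℝ) / l * L χ A| ≤ A := by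
    unfold L
    rw [Finset.mul_sum, ← Finset.sum_sub_distrib]
    refine (Finset.abs_sum_le_sum_abs _ _).trans ?_
    have h2 : ∀ a ∈ Ioc 0 A, |χ a * ((N / a : ℕ) : ℝ) - (y : ℝ) / l * (χ a / a)| ≤ 1 := by
      intro a ha
      rw [Finset.mem_Ioc] at ha
      have h3 : χ a * ((N / a : ℕ) : ℝ) - (y : ℝ) / l * (χ a / a) =
          χ a * (((N / a : ℕ) : ℝ) - (y : ℝ) / l / a) := by ring
      rw [h3, abs_mul]
      have h4 := h.abs_le a
      have h5 := AppA_floor (y := y) hl (show 1 ≤ a from ha.1)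
      rw [← hN] at h5
      calc |χ a| * |((N / a : ℕ) : ℝ) - (y : ℝ) / l / a| ≤ 1 * 1 :=
            mul_le_mul h4 h5 (abs_nonneg _) zero_le_one
        _ = 1 := one_mul 1
    refine (Finset.sum_le_sum h2).trans ?_
    rw [Finset.sum_const, Nat.card_Ioc, nsmul_eq_mul, mul_one, Nat.sub_zero]
  have hN2 : (N : ℝ) / A ≤ (y : ℝ) / (l * A) := by
    rw [← div_div]
    refine div_le_div_of_nonneg_right ?_ hAR.le
    rw [hN]
    exact Nat.cast_div_le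
  have h2 : |∑ a ∈ Ioc A N, χ a * ((N / a : ℕ) : ℝ)| ≤ m * ((y : ℝ) / (l * A)) := by
    have hIco : Ioc A N = Ico (A + 1) (N + 1) := by
      ext a
      rw [Finset.mem_Ioc, Finset.mem_Ico]
      omega
    rw [hIco]
    rcases Nat.lt_or_ge A N with hlt | hge
    · have h3 := abel_antitone (u := χ) (g := fun a => ((N / a : ℕ) : ℝ)) (M := (m : ℝ))
        (a := A + 1) (b := N + 1) (by omega) (fun c _ _ => h.sum _ _)
        (fun i hi _ => by
          show ((N / (i + 1) : ℕ) : ℝ) ≤ ((N / i : ℕ) : ℝ)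
          exact_mod_cast Nat.div_le_div_left (Nat.le_succ i) (by omega))
        (fun i _ _ => Nat.cast_nonneg _)
      refine h3.trans (mul_le_mul_of_nonneg_left ?_ hmR)
      refine le_trans ?_ hN2
      have h4 : ((N / (A + 1) : ℕ) : ℝ) ≤ ((N / A : ℕ) : ℝ) := by
        exact_mod_cast Nat.div_le_div_left (Nat.le_succ A) (by omega)
      exact h4.trans Nat.cast_div_le
    · have h5 : Ico (A + 1) (N + 1) = ∅ := Finset.Ico_eq_empty (by omega)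
      rw [h5, Finset.sum_empty, abs_zero]
      positivity
  rw [F_eq h, hsplit]
  have h6 : ∑ a ∈ Ioc 0 A, χ a * ((N / a : ℕ) : ℝ) + ∑ a ∈ Ioc A N, χ a * ((N / a : ℕ) : ℝ) -
      (y : ℝ) / l * L χ A = (∑ a ∈ Ioc 0 A, χ a * ((N / a : ℕ) : ℝ) - (y : ℝ) / l * L χ A) +
      ∑ a ∈ Ioc A N, χ a * ((N / a : ℕ) : ℝ) := by ring
  rw [h6]
  exact (abs_add_le _ _).trans (add_le_add h1 h2)

end TwR
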