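import Pool.Agent.W_aaa0df_h42.Defs

/-! `f = χ * 1` is nonnegative and at least `1` at squares. -/

set_option autoImplicit false

namespace TwR

open Finset ArithmeticFunction

variable {χ : ℕ → ℝ} {m : ℕ}

theorem RChar.abs_le (h : RChar χ m) (a : ℕ) : |χ a| ≤ 1 := by
  rcases h.val a with h | h | h <;> simp [h]

theorem X_apply (h : RChar χ m) (n : ℕ) : X χ n = χ n := by
  unfold X
  by_cases hn : n = 0
  · simp [hn, h.zero]
  · simp [hn]

theorem ConvA_mult (h : RChar χ m) : (f χ).IsMultiplicative := by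
  have h1 : (X χ).IsMultiplicative := by
    refine ⟨?_, ?_⟩
    · rw [X_apply h, h.one]
    · intro a b _
      rw [X_apply h, X_apply h, X_apply h, h.mul]
  exact h1.mul isMultiplicative_zeta.natCast

theorem ConvA_pow (h : RChar χ m) (a : ℕ) (i : ℕ) : χ (a ^ i) = χ a ^ i := by
  induction i with
  | zero => rw [pow_zero, pow_zero, h.one]
  | succ i ih => rw [pow_succ, pow_succ, h.mul, ih]

theorem ConvA_prime_pow (h : RChar χ m) {p : ℕ} (hp : p.Prime) (k : ℕ) :
    f χ (p ^ k) = ∑ i ∈ range (k + 1), χ p ^ i := by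
  unfold f
  rw [coe_mul_zeta_apply, Nat.sum_divisors_prime_pow hp]
  exact Finset.sum_congr rfl fun i _ => by rw [X_apply h, ConvA_pow h]

theorem ConvA_geom (h : RChar χ m) (p k : ℕ) :
    0 ≤ ∑ i ∈ range (k + 1), χ p ^ i ∧ (Even k → 1 ≤ ∑ i ∈ range (k + 1), χ p ^ i) := by
  rcases h.val p with h1 | h1 | h1
  · have h2 : ∑ i ∈ range (k + 1), χ p ^ i = 1 := by
      rw [h1, Finset.sum_range_succ']
      simp
    rw [h2]
    exact ⟨zero_le_one, fun _ => le_rfl⟩
  · have h2 : ∑ i ∈ range (k + 1), χ p ^ i = (k : ℝ) + 1 := by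
      rw [h1]
      simp
    rw [h2]
    have h3 : (0 : ℝ) ≤ k := Nat.cast_nonneg k
    exact ⟨by linarith, fun _ => by linarith⟩
  · rw [h1, neg_one_geom_sum]
    constructor
    · split_ifs
      · exact le_rfl
      · exact zero_le_one
    · intro hk
      rw [if_neg]
      rw [Nat.even_add_one]
      exact not_not.2 hk

/-- `f` is multiplicative (`ArithmeticFunction.IsMultiplicative.mul`) and
`f (p ^ k) = ∑_{i ≤ k} χ(p)^i ≥ 0`; use `IsMultiplicative.multiplicative_factorization`. -/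
theorem f_nonneg (h : RChar χ m) (n : ℕ) : 0 ≤ f χ n := by
  by_cases hn : n = 0
  · rw [hn, ArithmeticFunction.map_zero]
  · rw [(ConvA_mult h).multiplicative_factorization (f χ) hn]
    refine Finset.prod_nonneg fun p hp => ?_
    show 0 ≤ f χ (p ^ n.factorization p)
    rw [ConvA_prime_pow h (Nat.prime_of_mem_primeFactors hp)]
    exact (ConvA_geom h p _).1

/-- `f (p ^ (2 j)) ≥ 1`, so `f (k ^ 2) ≥ 1`. -/
theorem f_sq (h : RChar χ m) {k : ℕ} (hk : k ≠ 0) : 1 ≤ f χ (k ^ 2) := by
  rw [(ConvA_mult h).multiplicative_factorization (f χ) (pow_ne_zero 2 hk)]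
  refine Finset.prod_induction _ (fun x : ℝ => 1 ≤ x) (fun a b ha hb => ?_) le_rfl fun p hp => ?_
  · exact one_le_mul_of_one_le_of_one_le ha hb
  · show 1 ≤ f χ (p ^ (k ^ 2).factorization p)
    rw [ConvA_prime_pow h (Nat.prime_of_mem_primeFactors hp)]
    apply (ConvA_geom h p _).2
    rw [Nat.factorization_pow]
    simp

end TwR
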