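import Pool.Agent.W_aaa0df_h42.Abel
import Pool.Agent.W_aaa0df_h42.ConvA

/-! Approximation of `∑ χ(a) log(⌊y/a⌋!)`. -/

set_option autoImplicit false

namespace TwR

open Finset ArithmeticFunction

variable {χ : ℕ → ℝ} {m : ℕ}

theorem appb_low (n : ℕ) : 
    ((n + 1 : ℕ) : ℝ) * Real.log ((n + 1 : ℕ) : ℝ) - ((n + 1 : ℕ) : ℝ) + 1 ≤
      ∑ b ∈ Ioc 0 (n + 1), Real.log b := by
  induction n with
  | zero => simp
  | succ n ih =>
    rw [Finset.sum_Ioc_succ_top (by omega)]
    set k : ℝ := ((n + 1 : ℕ) : ℝ) with hk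
    have hk0 : 0 < k := by rw [hk]; positivity
    have hk1 : ((n + 1 + 1 : ℕ) : ℝ) = k + 1 := by rw [hk]; push_cast; ring
    rw [hk1]
    have h1 : Real.log (k + 1) - Real.log k ≤ 1 / k := by
      rw [← Real.log_div (by positivity) hk0.ne']
      have h2 := Real.log_le_sub_one_of_pos (x := (k + 1) / k) (by positivity)
      have h3 : (k + 1) / k - 1 = 1 / k := by
        field_simp
        ring
      linarith
    have h2 : k * (Real.log (k + 1) - Real.log k) ≤ 1 := by
      calc k * (Real.log (k + 1) - Real.log k) ≤ k * (1 / k) :=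
            mul_le_mul_of_nonneg_left h1 hk0.le
        _ = 1 := by field_simp
    linarith

theorem appb_up (n : ℕ) : ∑ b ∈ Ioc 0 (n + 1), Real.log b ≤
    ((n + 1 : ℕ) : ℝ) * Real.log ((n + 1 : ℕ) : ℝ) - ((n + 1 : ℕ) : ℝ) + 1 +
      Real.log ((n + 1 : ℕ) : ℝ) := by
  induction n with
  | zero => simp
  | succ n ih =>
    rw [Finset.sum_Ioc_succ_top (by omega)]
    set k : ℝ := ((n + 1 : ℕ) : ℝ) with hk
    have hk0 : 0 < k := by rw [hk]; positivity
    have hk1 : ((n + 1 + 1 : ℕ) : ℝ) = k + 1 := by rw [hk]; push_cast; ring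
    rw [hk1]
    have h1 : 1 / (k + 1) ≤ Real.log (k + 1) - Real.log k := by
      rw [← Real.log_div (by positivity) hk0.ne']
      have h2 := Real.one_sub_inv_le_log_of_pos (x := (k + 1) / k) (by positivity)
      have h3 : 1 - ((k + 1) / k)⁻¹ = 1 / (k + 1) := by
        field_simp
        ring
      linarith
    have h2 : 1 ≤ (k + 1) * (Real.log (k + 1) - Real.log k) := by
      calc 1 = (k + 1) * (1 / (k + 1)) := by field_simp
        _ ≤ _ := mul_le_mul_of_nonneg_left h1 (by positivity)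
    linarith

/-- `|log(n!) - (t log t - t)| ≤ 1 + log t` for `n = ⌊t⌋`, `t = y / a ≥ 1`:
`n log n - n + 1 ≤ log(n!) ≤ n log n - n + 1 + log n` and `0 ≤ h(t) - h(n) ≤ log t` for
`h(t) = t log t - t`. -/
theorem log_factorial_approx {y a : ℕ} (ha : 1 ≤ a) (hay : a ≤ y) :
    |(∑ b ∈ Ioc 0 (y / a), Real.log b)
        - ((y : ℝ) / a * (Real.log y - Real.log a) - (y : ℝ) / a)| ≤ 1 + Real.log y := by
  have ha0 : (0 : ℝ) < a := by exact_mod_cast ha
  have hy1 : 1 ≤ y := ha.trans hay
  have hy0 : (0 : ℝ) < y := by exact_mod_cast hy1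
  obtain ⟨n, hn⟩ : ∃ n, y / a = n + 1 :=
    Nat.exists_eq_succ_of_ne_zero (Nat.div_pos hay (by omega)).ne'
  rw [hn]
  set t : ℝ := (y : ℝ) / a with ht
  set k : ℝ := ((n + 1 : ℕ) : ℝ) with hk
  have hk1 : 1 ≤ k := by
    rw [hk]
    exact_mod_cast Nat.succ_le_succ (Nat.zero_le n)
  have hkt : k ≤ t := by
    rw [hk, ← hn, ht]
    exact Nat.cast_div_le
  have htk : t ≤ k + 1 := by
    rw [ht, div_le_iff₀ ha0, hk, ← hn]
    have h1 : y < (y / a + 1) * a := by
      have h2 := Nat.div_add_mod y a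
      have h3 := Nat.mod_lt y (show 0 < a by omega)
      nlinarith
    have h4 : (y : ℝ) < (((y / a : ℕ) : ℝ) + 1) * a := by exact_mod_cast h1
    exact h4.le
  have ht0 : 0 < t := by linarith
  have hlt : Real.log y - Real.log a = Real.log t := by
    rw [ht, Real.log_div hy0.ne' ha0.ne']
  rw [hlt]
  have hty : Real.log t ≤ Real.log y := by
    rw [← hlt]
    have : 0 ≤ Real.log a := Real.log_nonneg (by exact_mod_cast ha)
    linarith
  have hlogk : 0 ≤ Real.log k := Real.log_nonneg hk1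
  have hkt' : Real.log k ≤ Real.log t := Real.log_le_log (by linarith) hkt
  have h1 := appb_low n
  have h2 := appb_up n
  rw [← hk] at h1 h2
  -- `h t - h k`
  have h3 : t * Real.log t - t - (k * Real.log k - k) ≤ Real.log t := by
    have h4 : Real.log t - Real.log k ≤ t / k - 1 := by
      rw [← Real.log_div ht0.ne' (by linarith)]
      exact Real.log_le_sub_one_of_pos (by positivity)
    have h5 : k * (Real.log t - Real.log k) ≤ t - k := by
      calc k * (Real.log t - Real.log k) ≤ k * (t / k - 1) :=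
            mul_le_mul_of_nonneg_left h4 (by linarith)
        _ = t - k := by
            have : k ≠ 0 := by linarith
            field_simp
    have h6 : (t - k) * Real.log t ≤ 1 * Real.log t :=
      mul_le_mul_of_nonneg_right (by linarith) (by linarith)
    nlinarith
  have h4 : 0 ≤ t * Real.log t - t - (k * Real.log k - k) := by
    have h5 : 1 - (t / k)⁻¹ ≤ Real.log t - Real.log k := by
      rw [← Real.log_div ht0.ne' (by linarith)]
      exact Real.one_sub_inv_le_log_of_pos (by positivity)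
    have h6 : t - k ≤ t * (Real.log t - Real.log k) := by
      calc t - k = t * (1 - (t / k)⁻¹) := by
            have : k ≠ 0 := by linarith
            field_simp
        _ ≤ _ := mul_le_mul_of_nonneg_left h5 ht0.le
    have h7 : 0 ≤ (t - k) * Real.log k := mul_nonneg (by linarith) hlogk
    nlinarith
  rw [abs_le]
  constructor
  · linarith
  · linarith

theorem appb_G_nonneg (k : ℕ) : 0 ≤ ∑ b ∈ Ioc 0 k, Real.log b :=
  Finset.sum_nonneg fun b hb => Real.log_nonneg (by exact_mod_cast (Finset.mem_Ioc.1 hb).1)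

theorem appb_G_mono {k l : ℕ} (hkl : k ≤ l) :
    ∑ b ∈ Ioc 0 k, Real.log b ≤ ∑ b ∈ Ioc 0 l, Real.log b :=
  Finset.sum_le_sum_of_subset_of_nonneg (Finset.Ioc_subset_Ioc_right hkl)
    fun b hb _ => Real.log_nonneg (by exact_mod_cast (Finset.mem_Ioc.1 hb).1)

theorem appb_G_le (k : ℕ) : ∑ b ∈ Ioc 0 k, Real.log b ≤ k * Real.log k := by
  have h1 : ∀ b ∈ Ioc 0 k, Real.log (b : ℝ) ≤ Real.log k := by
    intro b hb
    rw [Finset.mem_Ioc] at hb
    exact Real.log_le_log (by exact_mod_cast hb.1) (by exact_mod_cast hb.2)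
  have h2 := Finset.sum_le_card_nsmul _ _ _ h1
  rwa [Nat.card_Ioc, Nat.sub_zero, nsmul_eq_mul] at h2

/-- `∑_{a ≤ y} χ(a) log(⌊y/a⌋!) = y (L log y - K - L) + O(A (1 + log y) + m (y/A) log y)`:
`log_factorial_approx` for `a ≤ A`, `abel_antitone` for `A < a ≤ y`
(`log(⌊y/(A+1)⌋!) ≤ (y/A) log y`). -/
theorem log_approx (h : RChar χ m) {A y : ℕ} (hA : 1 ≤ A) (hy : A ≤ y) :
    |(∑ a ∈ Ioc 0 y, χ a * ∑ b ∈ Ioc 0 (y / a), Real.log b)
        - y * (L χ A * Real.log y - K χ A - L χ A)|
      ≤ A * (1 + Real.log y) + m * ((y : ℝ) / A) * Real.log y := by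
  have hA0 : (0 : ℝ) < A := by exact_mod_cast hA
  have hy1 : 1 ≤ y := hA.trans hy
  have hy0 : (0 : ℝ) < y := by exact_mod_cast hy1
  have hlogy : 0 ≤ Real.log y := Real.log_nonneg (by exact_mod_cast hy1)
  have hsplit : (∑ a ∈ Ioc 0 y, χ a * ∑ b ∈ Ioc 0 (y / a), Real.log b) =
      (∑ a ∈ Ioc 0 A, χ a * ∑ b ∈ Ioc 0 (y / a), Real.log b) +
        ∑ a ∈ Ioc A y, χ a * ∑ b ∈ Ioc 0 (y / a), Real.log b :=
    (Finset.sum_Ioc_consecutive _ (Nat.zero_le A) hy).symm
  have hmain : (y : ℝ) * (L χ A * Real.log y - K χ A - L χ A) =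
      ∑ a ∈ Ioc 0 A, χ a * ((y : ℝ) / a * (Real.log y - Real.log a) - (y : ℝ) / a) := by
    unfold L K
    rw [Finset.sum_mul, ← Finset.sum_sub_distrib, ← Finset.sum_sub_distrib, Finset.mul_sum]
    refine Finset.sum_congr rfl fun a ha => ?_
    have : (a : ℝ) ≠ 0 := by
      have := (Finset.mem_Ioc.1 ha).1
      positivity
    field_simp
  have h1 : |(∑ a ∈ Ioc 0 A, χ a * ∑ b ∈ Ioc 0 (y / a), Real.log b) -
      (y : ℝ) * (L χ A * Real.log y - K χ A - L χ A)| ≤ A * (1 + Real.log y) := by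
    rw [hmain, ← Finset.sum_sub_distrib]
    refine (Finset.abs_sum_le_sum_abs _ _).trans ?_
    have h2 : ∀ a ∈ Ioc 0 A, |χ a * (∑ b ∈ Ioc 0 (y / a), Real.log b) -
        χ a * ((y : ℝ) / a * (Real.log y - Real.log a) - (y : ℝ) / a)| ≤ 1 + Real.log y := by
      intro a ha
      rw [Finset.mem_Ioc] at ha
      rw [← mul_sub, abs_mul]
      have h3 := log_factorial_approx (y := y) (a := a) ha.1 (ha.2.trans hy)
      calc |χ a| * _ ≤ 1 * (1 + Real.log y) :=
            mul_le_mul (h.abs_le a) h3 (abs_nonneg _) zero_le_one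
        _ = 1 + Real.log y := one_mul _
    refine (Finset.sum_le_card_nsmul _ _ _ h2).trans ?_
    rw [Nat.card_Ioc, Nat.sub_zero, nsmul_eq_mul]
  have h2 : |∑ a ∈ Ioc A y, χ a * ∑ b ∈ Ioc 0 (y / a), Real.log b| ≤
      m * ((y : ℝ) / A) * Real.log y := by
    have hm0 : (0 : ℝ) ≤ m := Nat.cast_nonneg m
    rcases hy.eq_or_lt with hAy | hAy
    · rw [hAy, Finset.Ioc_self, Finset.sum_empty, abs_zero]
      positivity
    · have h3 : Ioc A y = Ico (A + 1) (y + 1) := by
        ext a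
        simp only [Finset.mem_Ioc, Finset.mem_Ico]
        omega
      rw [h3]
      have h4 := abel_antitone (u := χ) (g := fun a => ∑ b ∈ Ioc 0 (y / a), Real.log b)
        (M := m) (a := A + 1) (b := y + 1) (by omega) (fun c _ _ => h.sum _ _)
        (fun i _ _ => appb_G_mono (Nat.div_le_div_left (by omega) (by omega)))
        (fun i _ _ => appb_G_nonneg _)
      refine h4.trans ?_
      rw [mul_assoc]
      refine mul_le_mul_of_nonneg_left ?_ hm0
      refine (appb_G_le _).trans ?_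
      have h5 : ((y / (A + 1) : ℕ) : ℝ) ≤ (y : ℝ) / A := by
        refine Nat.cast_div_le.trans ?_
        refine div_le_div_of_nonneg_left hy0.le hA0 ?_
        push_cast
        linarith
      have h6 : Real.log ((y / (A + 1) : ℕ) : ℝ) ≤ Real.log y := by
        have h7 : 0 < y / (A + 1) := Nat.div_pos (by omega) (by omega)
        exact Real.log_le_log (by exact_mod_cast h7) (by exact_mod_cast Nat.div_le_self _ _)
      refine mul_le_mul h5 h6 ?_ (by positivity)
      have h7 : 0 < y / (A + 1) := Nat.div_pos (by omega) (by omega)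
      exact Real.log_nonneg (by exact_mod_cast h7)
  rw [hsplit]
  have h3 : ∀ u v w : ℝ, u + v - w = (u - w) + v := fun u v w => by ring
  rw [h3]
  exact (abs_add_le _ _).trans (add_le_add h1 h2)

end TwR
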