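import Pool.Agent.W_aaa0df_h42.Abel
import Pool.Agent.W_aaa0df_h42.ConvA

/-! Approximation of `∑ χ(a) log a ⌊y/a⌋`. -/

set_option autoImplicit false

namespace TwR

open Finset ArithmeticFunction

variable {χ : ℕ → ℝ} {m : ℕ}

/-- `∑_{a ≤ y} χ(a) log a ⌊y/a⌋ = y K + O(A log y + 2 m (y/A) log y)`: for `a ≤ A` replace
`⌊y/a⌋` by `y/a`; for `A < a ≤ y` use `abel_monotone` (sums of `χ(a) log a` over intervals are
at most `2 m log y`) and then `abel_antitone` with `g a = ⌊y/a⌋`. -/
theorem chi_approx (h : RChar χ m) {A y : ℕ} (hA : 1 ≤ A) (hy : A ≤ y) :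
    |(∑ a ∈ Ioc 0 y, χ a * Real.log a * ((y / a : ℕ) : ℝ)) - y * K χ A|
      ≤ A * Real.log y + 2 * m * ((y : ℝ) / A) * Real.log y := by
  have hy1 : 1 ≤ y := hA.trans hy
  have hlog : 0 ≤ Real.log y := Real.log_natCast_nonneg y
  rw [← Finset.sum_Ioc_consecutive _ (Nat.zero_le A) hy]
  have hpart1 : |(∑ a ∈ Ioc 0 A, χ a * Real.log a * ((y / a : ℕ) : ℝ)) - y * K χ A| ≤
      A * Real.log y := by
    have h1 : (∑ a ∈ Ioc 0 A, χ a * Real.log a * ((y / a : ℕ) : ℝ)) - y * K χ A =
        ∑ a ∈ Ioc 0 A, χ a * Real.log a * (((y / a : ℕ) : ℝ) - (y : ℝ) / a) := by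
      unfold K
      rw [Finset.mul_sum, ← Finset.sum_sub_distrib]
      refine Finset.sum_congr rfl fun a _ => ?_
      ring
    rw [h1]
    refine (Finset.abs_sum_le_sum_abs _ _).trans ?_
    have h2 : ∀ a ∈ Ioc 0 A, |χ a * Real.log a * (((y / a : ℕ) : ℝ) - (y : ℝ) / a)| ≤
        Real.log y := by
      intro a ha
      rw [Finset.mem_Ioc] at ha
      have ha0 : (0 : ℝ) < a := by exact_mod_cast ha.1
      have h3 : Real.log a ≤ Real.log y :=
        Real.log_le_log ha0 (by exact_mod_cast ha.2.trans hy)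
      have h4 : 0 ≤ Real.log a := Real.log_natCast_nonneg a
      have h5 : |((y / a : ℕ) : ℝ) - (y : ℝ) / a| ≤ 1 := by
        rw [abs_le]
        have h6 : ((y / a : ℕ) : ℝ) ≤ (y : ℝ) / a := Nat.cast_div_le
        have h7 : (y : ℝ) / a < ((y / a : ℕ) : ℝ) + 1 := by
          rw [div_lt_iff₀ ha0]
          have h8 : y < (y / a + 1) * a := by
            rw [add_mul, one_mul]
            exact Nat.lt_div_mul_add ha.1
          exact_mod_cast h8
        constructor <;> linarith
      rw [abs_mul, abs_mul, abs_of_nonneg h4]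
      have h9 := h.abs_le a
      calc |χ a| * Real.log a * |((y / a : ℕ) : ℝ) - (y : ℝ) / a|
          ≤ 1 * Real.log y * 1 := by
            refine mul_le_mul (mul_le_mul h9 h3 h4 zero_le_one) h5 (abs_nonneg _) ?_
            rw [one_mul]
            exact hlog
        _ = Real.log y := by ring
    refine (Finset.sum_le_sum h2).trans ?_
    rw [Finset.sum_const, Nat.card_Ioc, nsmul_eq_mul, Nat.sub_zero]
  have hpart2 : |∑ a ∈ Ioc A y, χ a * Real.log a * ((y / a : ℕ) : ℝ)| ≤
      2 * m * ((y : ℝ) / A) * Real.log y := by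
    have hA0 : (0 : ℝ) < A := by exact_mod_cast hA
    rcases hy.eq_or_lt with he | hlt
    · rw [he, Finset.Ioc_self, Finset.sum_empty, abs_zero]
      positivity
    · have hI : Ioc A y = Ico (A + 1) (y + 1) := by
        ext a
        simp only [Finset.mem_Ioc, Finset.mem_Ico]
        omega
      rw [hI]
      have h1 := abel_antitone (u := fun a => χ a * Real.log a)
        (g := fun a => ((y / a : ℕ) : ℝ)) (M := 2 * m * Real.log y) (a := A + 1) (b := y + 1)
        (by omega)
        (by
          intro c hc1 hc2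
          refine abel_monotone (u := χ) (g := fun a => Real.log a) (M := m) (G := Real.log y)
            hc1 hlog (fun d _ _ => h.sum _ _) ?_ ?_ ?_
          · intro i hi _
            exact Real.log_le_log (by exact_mod_cast (by omega : 0 < i))
              (by exact_mod_cast Nat.le_succ i)
          · intro i _ _
            exact Real.log_natCast_nonneg i
          · intro i hi1 hi2
            exact Real.log_le_log (by exact_mod_cast (by omega : 0 < i))
              (by exact_mod_cast (by omega : i ≤ y)))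
        (by
          intro i hi _
          exact_mod_cast Nat.div_le_div_left (Nat.le_succ i) (by omega))
        (by
          intro i _ _
          positivity)
      refine h1.trans ?_
      have h2 : ((y / (A + 1) : ℕ) : ℝ) ≤ (y : ℝ) / A := by
        calc ((y / (A + 1) : ℕ) : ℝ) ≤ ((y / A : ℕ) : ℝ) := by
              exact_mod_cast Nat.div_le_div_left (Nat.le_succ A) (by omega)
          _ ≤ (y : ℝ) / A := Nat.cast_div_le
      calc 2 * m * Real.log y * ((y / (A + 1) : ℕ) : ℝ)
          ≤ 2 * m * Real.log y * ((y : ℝ) / A) := by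
            refine mul_le_mul_of_nonneg_left h2 ?_
            positivity
        _ = 2 * m * ((y : ℝ) / A) * Real.log y := by ring
  have h3 : (∑ a ∈ Ioc 0 A, χ a * Real.log a * ((y / a : ℕ) : ℝ) +
      ∑ a ∈ Ioc A y, χ a * Real.log a * ((y / a : ℕ) : ℝ)) - y * K χ A =
      ((∑ a ∈ Ioc 0 A, χ a * Real.log a * ((y / a : ℕ) : ℝ)) - y * K χ A) +
      ∑ a ∈ Ioc A y, χ a * Real.log a * ((y / a : ℕ) : ℝ) := by ring
  rw [h3]
  exact (abs_add_le _ _).trans (add_le_add hpart1 hpart2)

end TwR
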