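import Pool.Agent.W_aaa0df_h42.Defs

/-! Primes with `(e | p) = -(-1)^|F|` split in one of the fields. -/

set_option autoImplicit false

namespace TwR

open Finset

/-- If `∏_{d ∈ F} d = e k²`, `p` is a prime not dividing the product and
`(e | p) = -(-1)^|F|` (so `p` is odd) then `d` is a non-zero square modulo `p` for some `d ∈ F`
(otherwise all `(d | p) = -1` and the product is `(-1)^|F|`), hence (as
`d ≡ 0, 1 mod 4`) a square modulo `4 p`. -/
theorem exists_split {Fs : Finset ℤ} {e k : ℤ} (hF : ∀ d ∈ Fs, d % 4 = 0 ∨ d % 4 = 1)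
    (hprod : ∏ d ∈ Fs, d = e * k ^ 2) {p : ℕ} (hp : p.Prime)
    (hpd : ¬ (p : ℤ) ∣ ∏ d ∈ Fs, d) (hchi : chi e p = -(-1) ^ Fs.card) :
    ∃ d ∈ Fs, ¬ (p : ℤ) ∣ d ∧ ∃ x : ℤ, (4 * (p : ℤ)) ∣ x ^ 2 - d := by
  have hpf : Fact p.Prime := ⟨hp⟩
  have hodd : ¬ Even p := by
    intro hev
    rw [chi, if_pos hev] at hchi
    have h0 : ((-1 : ℝ)) ^ Fs.card = 0 := by linarith
    exact pow_ne_zero _ (by norm_num) h0
  rw [chi, if_neg hodd] at hchi
  have hchi' : jacobiSym e p = -(-1) ^ Fs.card := by exact_mod_cast hchi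
  have hcopr : ∀ d : ℤ, ¬ (p : ℤ) ∣ d → d.gcd p = 1 := by
    intro d hd
    rw [← Int.isCoprime_iff_gcd_eq_one]
    exact (((Nat.prime_iff_prime_int.1 hp).coprime_iff_not_dvd).2 hd).symm
  have hk : ¬ (p : ℤ) ∣ k := fun h => hpd (by
    rw [hprod]
    exact dvd_mul_of_dvd_right (dvd_pow h two_ne_zero) _)
  have h1 : jacobiSym (∏ d ∈ Fs, d) p = -(-1) ^ Fs.card := by
    rw [hprod, jacobiSym.mul_left, jacobiSym.sq_one' (hcopr k hk), mul_one, hchi']
  have h2 : ∀ Gs : Finset ℤ, jacobiSym (∏ d ∈ Gs, d) p = ∏ d ∈ Gs, jacobiSym d p := by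
    intro Gs
    induction Gs using Finset.induction_on with
    | empty => rw [Finset.prod_empty, Finset.prod_empty, jacobiSym.one_left]
    | insert a s ha ih => rw [Finset.prod_insert ha, Finset.prod_insert ha, jacobiSym.mul_left, ih]
  have h3 : ∃ d ∈ Fs, jacobiSym d p ≠ -1 := by
    by_contra hcon
    push Not at hcon
    rw [h2, Finset.prod_congr rfl hcon, Finset.prod_const] at h1
    have h0 : ((-1 : ℤ)) ^ Fs.card = 0 := by linarith
    exact pow_ne_zero _ (by norm_num) h0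
  obtain ⟨d, hd, hdn⟩ := h3
  have hpd' : ¬ (p : ℤ) ∣ d := fun h => hpd (dvd_trans h (Finset.dvd_prod_of_mem _ hd))
  refine ⟨d, hd, hpd', ?_⟩
  have h4 : jacobiSym d p = 1 :=
    (jacobiSym.eq_one_or_neg_one (hcopr d hpd')).resolve_right hdn
  obtain ⟨y, hy⟩ := ZMod.isSquare_of_jacobiSym_eq_one h4
  have h5 : (p : ℤ) ∣ (y.val : ℤ) ^ 2 - d := by
    rw [← ZMod.intCast_zmod_eq_zero_iff_dvd]
    push_cast
    rw [ZMod.natCast_zmod_val, hy]
    ring
  generalize (y.val : ℤ) = z at h5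
  have hp2 : (p : ℤ) % 2 = 1 := by
    have : p % 2 = 1 := Nat.odd_iff.1 (Nat.not_even_iff_odd.1 hodd)
    omega
  have h6 : ∃ x : ℤ, x % 2 = d % 2 ∧ (p : ℤ) ∣ x ^ 2 - d := by
    by_cases hz : z % 2 = d % 2
    · exact ⟨z, hz, h5⟩
    · refine ⟨z + p, by omega, ?_⟩
      have h7 : (z + p) ^ 2 - d = (z ^ 2 - d) + p * (2 * z + p) := by ring
      rw [h7]
      exact dvd_add h5 (dvd_mul_right _ _)
  obtain ⟨x, hx, hx'⟩ := h6
  refine ⟨x, ?_⟩
  have h8 : (4 : ℤ) ∣ x ^ 2 - d := by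
    rcases hF d hd with h | h
    · have h9 : x % 2 = 0 := by omega
      obtain ⟨t, rfl⟩ : (2 : ℤ) ∣ x := Int.dvd_of_emod_eq_zero h9
      have h10 : (2 * t) ^ 2 = 4 * t ^ 2 := by ring
      rw [h10]
      omega
    · have h9 : x % 2 = 1 := by omega
      obtain ⟨t, ht⟩ : ∃ t, x = 2 * t + 1 := ⟨x / 2, by omega⟩
      have h10 : x ^ 2 = 4 * (t ^ 2 + t) + 1 := by rw [ht]; ring
      rw [h10]
      omega
  have h11 : IsCoprime (4 : ℤ) (p : ℤ) := by
    have h12 : IsCoprime (2 : ℤ) (p : ℤ) := by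
      rw [Int.isCoprime_iff_gcd_eq_one]
      have h13 := (Nat.coprime_primes Nat.prime_two hp).2 (by
        rintro rfl
        exact hodd even_two)
      exact h13
    have h14 : (4 : ℤ) = 2 ^ 2 := by norm_num
    rw [h14]
    exact h12.pow_left
  exact h11.mul_dvd h8 hx'

end TwR
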