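import Pool.Agent.W_aaa0df_h42.ArA
import Pool.Agent.W_MP_aaa0df_nt.Defs

/-! Counting. -/

set_option autoImplicit false

namespace TwR

open Finset MPaaa0df

/-- the number of prime divisors of `∏_{d ∈ F} d` is at most `log₂ |∏ d| ≤ 2 ∑ log |d|`. -/
theorem card_bad_le {Fs : Finset ℤ} (h0 : ∀ d ∈ Fs, d ≠ 0) (x : ℕ) :
    (((Ioc 0 x).filter (fun p : ℕ => p.Prime ∧ (p : ℤ) ∣ ∏ d ∈ Fs, d)).card : ℝ)
      ≤ 2 * ∑ d ∈ Fs, Real.log |(d : ℝ)| := by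
  have hP : (∏ d ∈ Fs, d) ≠ 0 := Finset.prod_ne_zero_iff.2 h0
  have hlogP : Real.log |((∏ d ∈ Fs, d : ℤ) : ℝ)| = ∑ d ∈ Fs, Real.log |(d : ℝ)| := by
    rw [Int.cast_prod, Finset.abs_prod, Real.log_prod]
    intro d hd
    exact abs_ne_zero.2 (by exact_mod_cast h0 d hd)
  rw [← hlogP]
  generalize (∏ d ∈ Fs, d) = P at hP
  have hsub : (Ioc 0 x).filter (fun p : ℕ => p.Prime ∧ (p : ℤ) ∣ P) ⊆ P.natAbs.primeFactors := by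
    intro p hp
    rw [Finset.mem_filter] at hp
    rw [Nat.mem_primeFactors]
    exact ⟨hp.2.1, Int.natCast_dvd.1 hp.2.2, Int.natAbs_ne_zero.2 hP⟩
  have h1 : 2 ^ ((Ioc 0 x).filter (fun p : ℕ => p.Prime ∧ (p : ℤ) ∣ P)).card ≤ P.natAbs := by
    calc 2 ^ ((Ioc 0 x).filter (fun p : ℕ => p.Prime ∧ (p : ℤ) ∣ P)).card
        ≤ 2 ^ P.natAbs.primeFactors.card :=
          Nat.pow_le_pow_right (by norm_num) (Finset.card_le_card hsub)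
      _ ≤ ∏ p ∈ P.natAbs.primeFactors, p := by
          refine Finset.pow_card_le_prod _ _ _ fun p hp => ?_
          exact (Nat.prime_of_mem_primeFactors hp).two_le
      _ ≤ P.natAbs := Nat.le_of_dvd (Int.natAbs_pos.2 hP) (Nat.prod_primeFactors_dvd _)
  have h2 : (2 : ℝ) ^ ((Ioc 0 x).filter (fun p : ℕ => p.Prime ∧ (p : ℤ) ∣ P)).card ≤
      |(P : ℝ)| := by
    have h3 : |(P : ℝ)| = ((P.natAbs : ℕ) : ℝ) := by
      rw [Nat.cast_natAbs, Int.cast_abs]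
    rw [h3]
    exact_mod_cast h1
  have h4 := Real.log_le_log (by positivity) h2
  rw [Real.log_pow] at h4
  have h5 := Real.log_two_gt_d9
  have h6 : (0 : ℝ) ≤ ((Ioc 0 x).filter (fun p : ℕ => p.Prime ∧ (p : ℤ) ∣ P)).card :=
    Nat.cast_nonneg _
  nlinarith [h4, h5, h6]

/-- counting: `#{p ≤ x : (e | p) = -(-1)^|F|} ≤ 2 ∑ log |d| + ∑ splitCount d y` for `x < y`. -/
theorem count_le {Fs : Finset ℤ} {e k : ℤ} (hF : ∀ d ∈ Fs, d % 4 = 0 ∨ d % 4 = 1)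
    (h0 : ∀ d ∈ Fs, d ≠ 0) (hprod : ∏ d ∈ Fs, d = e * k ^ 2) {x : ℕ} {y : ℝ}
    (hxy : (x : ℝ) < y) :
    ((S (chi e) (-(-1) ^ Fs.card) 0 x).card : ℝ)
      ≤ 2 * ∑ d ∈ Fs, Real.log |(d : ℝ)| + ∑ d ∈ Fs, (splitCount d y : ℝ) := by
  classical
  have hsub : S (chi e) (-(-1) ^ Fs.card) 0 x ⊆
      ((Ioc 0 x).filter (fun p : ℕ => p.Prime ∧ (p : ℤ) ∣ ∏ d ∈ Fs, d)) ∪
      Fs.biUnion (fun d => (Ioc 0 x).filter (fun p : ℕ => p.Prime ∧ ¬ ((p : ℤ) ∣ d) ∧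
        ∃ x : ℤ, (4 * (p : ℤ)) ∣ x ^ 2 - d)) := by
    intro p hp
    unfold S at hp
    rw [Finset.mem_filter] at hp
    obtain ⟨hp1, hp2, hp3⟩ := hp
    rw [Finset.mem_union]
    by_cases hd : (p : ℤ) ∣ ∏ d ∈ Fs, d
    · left
      rw [Finset.mem_filter]
      exact ⟨hp1, hp2, hd⟩
    · right
      rw [Finset.mem_biUnion]
      obtain ⟨d, h1, h2, h3⟩ := exists_split hF hprod hp2 hd hp3
      refine ⟨d, h1, ?_⟩
      rw [Finset.mem_filter]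
      exact ⟨hp1, hp2, h2, h3⟩
  have h1 : ∀ d ∈ Fs, (((Ioc 0 x).filter (fun p : ℕ => p.Prime ∧ ¬ ((p : ℤ) ∣ d) ∧
        ∃ x : ℤ, (4 * (p : ℤ)) ∣ x ^ 2 - d)).card : ℝ) ≤ (splitCount d y : ℝ) := by
    intro d _
    rw [Nat.cast_le]
    unfold splitCount
    rw [← Set.ncard_coe_finset]
    refine Set.ncard_le_ncard ?_ ?_
    · intro p hp
      rw [Finset.mem_coe, Finset.mem_filter, Finset.mem_Ioc] at hp
      refine ⟨hp.2.1, ?_, hp.2.2⟩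
      have h2 : (p : ℝ) ≤ x := by exact_mod_cast hp.1.2
      linarith
    · refine Set.Finite.subset (Set.finite_Iic ⌈y⌉₊) ?_
      intro p hp
      have h2 : (p : ℝ) < y := hp.2.1
      have h3 : (p : ℝ) ≤ ⌈y⌉₊ := h2.le.trans (Nat.le_ceil y)
      exact_mod_cast h3
  have h2 : (S (chi e) (-(-1) ^ Fs.card) 0 x).card ≤
      ((Ioc 0 x).filter (fun p : ℕ => p.Prime ∧ (p : ℤ) ∣ ∏ d ∈ Fs, d)).card +
      ∑ d ∈ Fs, ((Ioc 0 x).filter (fun p : ℕ => p.Prime ∧ ¬ ((p : ℤ) ∣ d) ∧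
        ∃ x : ℤ, (4 * (p : ℤ)) ∣ x ^ 2 - d)).card :=
    (Finset.card_le_card hsub).trans ((Finset.card_union_le _ _).trans
      (Nat.add_le_add_left Finset.card_biUnion_le _))
  calc ((S (chi e) (-(-1) ^ Fs.card) 0 x).card : ℝ)
      ≤ ((((Ioc 0 x).filter (fun p : ℕ => p.Prime ∧ (p : ℤ) ∣ ∏ d ∈ Fs, d)).card +
      ∑ d ∈ Fs, ((Ioc 0 x).filter (fun p : ℕ => p.Prime ∧ ¬ ((p : ℤ) ∣ d) ∧
        ∃ x : ℤ, (4 * (p : ℤ)) ∣ x ^ 2 - d)).card : ℕ) : ℝ) := by exact_mod_cast h2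
    _ = (((Ioc 0 x).filter (fun p : ℕ => p.Prime ∧ (p : ℤ) ∣ ∏ d ∈ Fs, d)).card : ℝ) +
      ∑ d ∈ Fs, (((Ioc 0 x).filter (fun p : ℕ => p.Prime ∧ ¬ ((p : ℤ) ∣ d) ∧
        ∃ x : ℤ, (4 * (p : ℤ)) ∣ x ^ 2 - d)).card : ℝ) := by push_cast; rfl
    _ ≤ _ := add_le_add (card_bad_le h0 x) (Finset.sum_le_sum h1)

end TwR
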