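import Pool.Agent.W_aaa0df_h42.Defs

/-! Square classes of fundamental discriminants. -/

set_option autoImplicit false

namespace TwR

open Finset

/-- negative fundamental discriminant -/
def NegFund (d : ℤ) : Prop :=
  d < 0 ∧ ((d % 4 = 1 ∧ Squarefree d) ∨
    (∃ m : ℤ, d = 4 * m ∧ (m % 4 = 2 ∨ m % 4 = 3) ∧ Squarefree m))

/-- if `e` is squarefree, `e u² = w v²`, `v ≠ 0` (and `w ≠ 0`), then `e ∣ w`. -/
theorem sqf_dvd {e w u v : ℤ} (he : Squarefree e) (hv : v ≠ 0) (hu : u ≠ 0)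
    (h : e * u ^ 2 = w * v ^ 2) : e ∣ w := by
  have hg : 0 < Int.gcd u v := Int.gcd_pos_of_ne_zero_left _ hu
  obtain ⟨u', v', hcop, hu', hv'⟩ := Int.exists_gcd_one hg
  have hg' : ((Int.gcd u v : ℕ) : ℤ) ≠ 0 := by exact_mod_cast hg.ne'
  generalize ((Int.gcd u v : ℕ) : ℤ) = g at hu' hv' hg'
  have h1 : e * u' ^ 2 = w * v' ^ 2 := by
    have h2 : g ^ 2 * (e * u' ^ 2) = g ^ 2 * (w * v' ^ 2) := by
      rw [hu', hv'] at h
      linear_combination h
    exact mul_left_cancel₀ (pow_ne_zero 2 hg') h2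
  have h2 : IsCoprime (v' ^ 2) (u' ^ 2) := by
    have : IsCoprime u' v' := Int.isCoprime_iff_gcd_eq_one.2 hcop
    exact (this.symm.pow_left).pow_right
  have h3 : v' ^ 2 ∣ e := by
    refine h2.dvd_of_dvd_mul_right ?_
    rw [h1]
    exact dvd_mul_left _ _
  have h4 : IsUnit v' := by
    apply he
    rw [← sq]
    exact h3
  have h5 : v' ^ 2 = 1 := by
    rcases Int.isUnit_iff.1 h4 with h | h <;> rw [h] <;> norm_num
  rw [h5, mul_one] at h1
  exact ⟨u' ^ 2, h1.symm⟩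

/-- the squarefree kernel -/
theorem ArC_kernel {d : ℤ} (hd : NegFund d) : ∃ s c : ℤ, Squarefree s ∧ s < 0 ∧ c ≠ 0 ∧
    d = s * c ^ 2 ∧ |s| ≤ |d| ∧ |d| ≤ 4 * |s| ∧ ((s % 4 = 1 ∧ d = s) ∨ (s % 4 ≠ 1 ∧ d = 4 * s)) := by
  obtain ⟨h0, ⟨h1, h2⟩ | ⟨m, h1, h2, h3⟩⟩ := hd
  · refine ⟨d, 1, h2, h0, one_ne_zero, by ring, le_refl _, ?_, Or.inl ⟨h1, rfl⟩⟩
    have := abs_nonneg d
    linarith
  · have hm : m < 0 := by omega
    refine ⟨m, 2, h3, hm, two_ne_zero, by rw [h1]; ring, ?_, ?_, Or.inr ⟨by omega, h1⟩⟩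
    · rw [abs_of_neg hm, abs_of_neg h0]
      omega
    · rw [abs_of_neg hm, abs_of_neg h0]
      omega

/-- two negative fundamental discriminants whose product is a square are equal (their squarefree
kernels agree). -/
theorem fund_eq {d d' k : ℤ} (hd : NegFund d) (hd' : NegFund d') (h : d * d' = k ^ 2) :
    d = d' := by
  have hd0 : d ≠ 0 := hd.1.ne
  have hd0' : d' ≠ 0 := hd'.1.ne
  have hk : k ≠ 0 := by
    rintro rfl
    rw [zero_pow two_ne_zero] at h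
    exact (mul_ne_zero hd0 hd0') h
  obtain ⟨s, c, hs, hs0, hc, hdc, -, -, hcase⟩ := ArC_kernel hd
  obtain ⟨s', c', hs', hs0', hc', hdc', -, -, hcase'⟩ := ArC_kernel hd'
  have h1 : s' ∣ s := by
    refine sqf_dvd hs' (v := k) (u := s * c * c') hk
      (mul_ne_zero (mul_ne_zero hs0.ne hc) hc') ?_
    rw [hdc, hdc'] at h
    linear_combination s * h
  have h2 : s ∣ s' := by
    refine sqf_dvd hs (v := k) (u := s' * c * c') hk
      (mul_ne_zero (mul_ne_zero hs0'.ne hc) hc') ?_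
    rw [hdc, hdc'] at h
    linear_combination s' * h
  have h3 : s = s' := by
    have h4 : -s = -s' := by
      refine Int.dvd_antisymm (by omega) (by omega) ?_ ?_
      · exact neg_dvd.2 (dvd_neg.2 h2)
      · exact neg_dvd.2 (dvd_neg.2 h1)
    exact neg_injective h4
  subst h3
  rcases hcase with ⟨g1, g2⟩ | ⟨g1, g2⟩ <;> rcases hcase' with ⟨g3, g4⟩ | ⟨g3, g4⟩
  · rw [g2, g4]
  · exact absurd g1 g3
  · exact absurd g3 g1
  · rw [g2, g4]

/-- `|d'| ≤ 4 e |d|` if `d d' = e k²`: the squarefree kernel of `d'` divides `e` times the one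
of `d`. -/
theorem fund_le {d d' e k : ℤ} (hd : NegFund d) (hd' : NegFund d') (he : 0 < e)
    (h : d * d' = e * k ^ 2) : |d'| ≤ 4 * e * |d| := by
  have hd0 : d ≠ 0 := hd.1.ne
  have hd0' : d' ≠ 0 := hd'.1.ne
  have hk : k ≠ 0 := by
    rintro rfl
    rw [zero_pow two_ne_zero, mul_zero] at h
    exact (mul_ne_zero hd0 hd0') h
  obtain ⟨s, c, hs, hs0, hc, hdc, hsd, -, -⟩ := ArC_kernel hd
  obtain ⟨s', c', hs', hs0', hc', hdc', -, hsd', -⟩ := ArC_kernel hd'
  have h1 : s' ∣ s * e := by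
    refine sqf_dvd hs' (v := k) (u := s * c * c') hk
      (mul_ne_zero (mul_ne_zero hs0.ne hc) hc') ?_
    rw [hdc, hdc'] at h
    linear_combination s * h
  have h2 : |s'| ≤ |s| * e := by
    have h3 : |s'| ∣ |s * e| := (abs_dvd_abs _ _).2 h1
    have h4 : 0 < |s * e| := abs_pos.2 (mul_ne_zero hs0.ne he.ne')
    have h5 := Int.le_of_dvd h4 h3
    rwa [abs_mul, abs_of_pos he] at h5
  calc |d'| ≤ 4 * |s'| := hsd'
    _ ≤ 4 * (|s| * e) := by linarith
    _ ≤ 4 * (|d| * e) := by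
      have := mul_le_mul_of_nonneg_right hsd he.le
      linarith
    _ = 4 * e * |d| := by ring


/-- every non-zero integer is a squarefree integer times a square. -/
theorem exists_sqf {n : ℤ} (hn : n ≠ 0) : ∃ e k : ℤ, Squarefree e ∧ k ≠ 0 ∧ n = e * k ^ 2 := by
  obtain ⟨a, b, ha, hb, hab, hsq⟩ := Nat.sq_mul_squarefree_of_pos (Int.natAbs_pos.2 hn)
  rcases Int.natAbs_eq n with h | h
  · refine ⟨a, b, Int.squarefree_natCast.2 hsq, by exact_mod_cast hb.ne', ?_⟩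
    rw [h, ← hab]
    push_cast
    ring
  · refine ⟨-a, b, Int.squarefree_natAbs.1 (by rw [Int.natAbs_neg, Int.natAbs_natCast]; exact hsq),
      by exact_mod_cast hb.ne', ?_⟩
    rw [h, ← hab]
    push_cast
    ring

end TwR
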