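import Pool.Agent.W_aaa0df_h42.ConvA

/-! The two convolution identities. -/

set_option autoImplicit false

namespace TwR

open Finset ArithmeticFunction

variable {χ : ℕ → ℝ} {m : ℕ}

/-- Completely multiplicative functions distribute over the convolution. -/
lemma ConvC_pmul (h : RChar χ m) (a b : ArithmeticFunction ℝ) :
    (X χ).pmul (a * b) = (X χ).pmul a * (X χ).pmul b := by
  ext n
  rw [pmul_apply, mul_apply, mul_apply, Finset.mul_sum]
  refine Finset.sum_congr rfl fun x hx => ?_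
  obtain ⟨h1, h2⟩ := Nat.mem_divisorsAntidiagonal.1 hx
  rw [pmul_apply, pmul_apply, X_apply h, X_apply h, X_apply h, ← h1, h.mul]
  ring

/-- `Λ * (χ * 1) = χ * (Λ * 1) = χ * log`; use `ArithmeticFunction.sum_Ioc_mul_eq_sum_sum`,
`vonMangoldt_mul_zeta`. -/
theorem conv_log (h : RChar χ m) (y : ℕ) :
    ∑ l ∈ Ioc 0 y, vonMangoldt l * F χ (y / l)
      = ∑ a ∈ Ioc 0 y, χ a * ∑ b ∈ Ioc 0 (y / a), Real.log b := by
  have h1 : ∑ l ∈ Ioc 0 y, vonMangoldt l * F χ (y / l) =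
      ∑ n ∈ Ioc 0 y, (vonMangoldt * f χ) n := by
    rw [sum_Ioc_mul_eq_sum_sum]
    rfl
  have h2 : ∑ a ∈ Ioc 0 y, χ a * ∑ b ∈ Ioc 0 (y / a), Real.log b =
      ∑ n ∈ Ioc 0 y, (X χ * ArithmeticFunction.log) n := by
    rw [sum_Ioc_mul_eq_sum_sum]
    refine Finset.sum_congr rfl fun a _ => ?_
    rw [X_apply h]
    rfl
  have h3 : vonMangoldt * f χ = X χ * ArithmeticFunction.log := by
    unfold f
    rw [← vonMangoldt_mul_zeta]
    ring
  rw [h1, h2, h3]

/-- `(χ Λ) * χ = χ (Λ * 1) = χ log` (complete multiplicativity), so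
`(χ Λ) * (χ * 1) = (χ log) * 1`. -/
theorem conv_chi (h : RChar χ m) (y : ℕ) :
    ∑ l ∈ Ioc 0 y, χ l * vonMangoldt l * F χ (y / l)
      = ∑ a ∈ Ioc 0 y, χ a * Real.log a * ((y / a : ℕ) : ℝ) := by
  have h1 : ∑ l ∈ Ioc 0 y, χ l * vonMangoldt l * F χ (y / l) =
      ∑ n ∈ Ioc 0 y, ((X χ).pmul vonMangoldt * f χ) n := by
    rw [sum_Ioc_mul_eq_sum_sum]
    refine Finset.sum_congr rfl fun a _ => ?_
    rw [pmul_apply, X_apply h]
    rfl
  have h2 : ∑ a ∈ Ioc 0 y, χ a * Real.log a * ((y / a : ℕ) : ℝ) =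
      ∑ n ∈ Ioc 0 y, ((X χ).pmul ArithmeticFunction.log *
        (ArithmeticFunction.zeta : ArithmeticFunction ℝ)) n := by
    rw [sum_Ioc_mul_zeta_eq_sum]
    refine Finset.sum_congr rfl fun a _ => ?_
    rw [pmul_apply, X_apply h, log_apply]
  have h3 : (X χ).pmul vonMangoldt * f χ = (X χ).pmul ArithmeticFunction.log *
      (ArithmeticFunction.zeta : ArithmeticFunction ℝ) := by
    unfold f
    rw [← vonMangoldt_mul_zeta, ConvC_pmul h, pmul_zeta, mul_assoc]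
  rw [h1, h2, h3]

end TwR
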