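import Mathlib

/-!
# MP_aaa0df_nt.TwistRepulsion: definitions (helper42)

`RChar χ m`: `χ : ℕ → ℝ` is completely multiplicative with values in `{0, 1, -1}`, its sums over
intervals are at most `m` in absolute value, and the primes `p` with `χ p = 0` are at most `m`.
-/

set_option autoImplicit false

namespace TwR

open Finset ArithmeticFunction

/-- a real character-like function with interval sums bounded by `m`. -/
structure RChar (χ : ℕ → ℝ) (m : ℕ) : Prop where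
  zero : χ 0 = 0
  one : χ 1 = 1
  mul : ∀ a b, χ (a * b) = χ a * χ b
  val : ∀ a, χ a = 0 ∨ χ a = 1 ∨ χ a = -1
  sum : ∀ a b, |∑ n ∈ Ico a b, χ n| ≤ m
  pos : 1 ≤ m
  bad : ∀ p, p.Prime → χ p = 0 → p ≤ m

/-- the arithmetic function of `χ`. -/
noncomputable def X (χ : ℕ → ℝ) : ArithmeticFunction ℝ :=
  ⟨fun n => if n = 0 then 0 else χ n, by simp⟩

/-- `f = χ * 1`. -/
noncomputable def f (χ : ℕ → ℝ) : ArithmeticFunction ℝ := X χ * (ArithmeticFunction.zeta : ArithmeticFunction ℝ)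

/-- `F N = ∑_{n ≤ N} f n`. -/
noncomputable def F (χ : ℕ → ℝ) (N : ℕ) : ℝ := ∑ n ∈ Ioc 0 N, f χ n

/-- `L A = ∑_{a ≤ A} χ a / a`. -/
noncomputable def L (χ : ℕ → ℝ) (A : ℕ) : ℝ := ∑ a ∈ Ioc 0 A, χ a / a

/-- `K A = ∑_{a ≤ A} χ a log a / a`. -/
noncomputable def K (χ : ℕ → ℝ) (A : ℕ) : ℝ := ∑ a ∈ Ioc 0 A, χ a * Real.log a / a

/-- the primes in `(z, x]` with `χ p = s`. -/
noncomputable def S (χ : ℕ → ℝ) (s : ℝ) (z x : ℕ) : Finset ℕ :=
  (Ioc z x).filter (fun p => p.Prime ∧ χ p = s)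

/-- the character attached to `e`: `n ↦ (e | n)` (Jacobi symbol) for odd `n`, `0` for even `n`. -/
noncomputable def chi (e : ℤ) (n : ℕ) : ℝ := if Even n then 0 else (jacobiSym e n : ℝ)

end TwR
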