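import Pool.Agent.W_aaa0df_h42.Defs

/-! Asymptotic inequalities for the parameters `A = ⌊x^δ⌋`, `z = ⌊x^(1-3δ)⌋`. -/

set_option autoImplicit false

namespace TwR

open Finset ArithmeticFunction

variable {χ : ℕ → ℝ} {m : ℕ}

theorem fina_ev {δ : ℝ} (hδ : 0 < δ) :
    ∃ x₀ : ℕ, 3 ≤ x₀ ∧ ∀ x : ℕ, x₀ ≤ x → 13440 * (1 + Real.log x) ≤ δ * (x : ℝ) ^ (δ / 4) := by
  have h4 : 0 < δ / 4 := by positivity
  have h1 := (isLittleO_log_rpow_atTop h4).bound (c := δ / 26880) (by positivity)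
  have h2 : ∀ᶠ x : ℝ in Filter.atTop, 26880 / δ ≤ x ^ (δ / 4) :=
    (tendsto_rpow_atTop h4).eventually_ge_atTop _
  have h3 : ∀ᶠ x : ℝ in Filter.atTop, 1 ≤ x := Filter.eventually_ge_atTop 1
  have h5 := (h1.and (h2.and h3))
  obtain ⟨x₁, hx₁⟩ := Filter.eventually_atTop.1 h5
  refine ⟨max 3 ⌈x₁⌉₊, le_max_left _ _, fun x hx => ?_⟩
  have hx1 : x₁ ≤ x := (Nat.le_ceil x₁).trans (by exact_mod_cast (le_max_right _ _).trans hx)
  obtain ⟨a1, a2, a3⟩ := hx₁ x hx1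
  have b1 : 0 ≤ Real.log (x : ℝ) := Real.log_nonneg a3
  have b2 : 0 ≤ (x : ℝ) ^ (δ / 4) := by positivity
  rw [Real.norm_of_nonneg b1, Real.norm_of_nonneg b2] at a1
  rw [div_le_iff₀ hδ] at a2
  nlinarith

/-- For `0 < δ < 1/9` there is `x₀` such that for all `x ≥ x₀`, with `A = ⌊x^δ⌋`,
`z = ⌊x^(1-3δ)⌋` and every natural `m` with `1 ≤ m ≤ x^(δ/4)`: all the inequalities needed. -/
theorem params {δ : ℝ} (hδ : 0 < δ) (hδ9 : δ < 1 / 9) :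
    ∃ x₀ : ℕ, 3 ≤ x₀ ∧ ∀ x : ℕ, x₀ ≤ x → ∀ m : ℕ, 1 ≤ m → (m : ℝ) ≤ (x : ℝ) ^ (δ / 4) →
      1 ≤ ⌊(x : ℝ) ^ δ⌋₊ ∧ m ≤ ⌊(x : ℝ) ^ (1 - 3 * δ)⌋₊ ∧
      ⌊(x : ℝ) ^ δ⌋₊ ^ 2 * ⌊(x : ℝ) ^ (1 - 3 * δ)⌋₊ ≤ x ∧
      δ * Real.log x ≤ Real.log ((x : ℝ) / ((⌊(x : ℝ) ^ δ⌋₊ : ℝ) ^ 2 * ⌊(x : ℝ) ^ (1 - 3 * δ)⌋₊)) ∧
      160 * m ^ 3 ≤ ⌊(x : ℝ) ^ δ⌋₊ ∧
      28 * m * Real.log x ^ 2 / ⌊(x : ℝ) ^ δ⌋₊ ≤ δ * Real.log x / (240 * (m : ℝ) ^ 2) ∧
      (x : ℝ) ^ (1 - 4 * δ) + 2 * √x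
        ≤ ⌊(x : ℝ) ^ (1 - 3 * δ)⌋₊ * δ / (480 * (m : ℝ) ^ 2 * (1 + Real.log x)) := by
  obtain ⟨x₀, hx₀, hx₀'⟩ := fina_ev hδ
  refine ⟨x₀, hx₀, fun x hx m hm hmx => ?_⟩
  have hP := hx₀' x hx
  have hx3 : (3 : ℝ) ≤ x := by exact_mod_cast hx₀.trans hx
  have hx0 : (0 : ℝ) < x := by linarith
  have hx1 : (1 : ℝ) ≤ x := by linarith
  have hm1 : (1 : ℝ) ≤ m := by exact_mod_cast hm
  have hlog : 0 < Real.log x := Real.log_pos (by linarith)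
  set Y : ℝ := (x : ℝ) ^ (δ / 4) with hY
  have hXY : (x : ℝ) ^ δ = Y ^ 4 := by
    rw [hY, ← Real.rpow_natCast, ← Real.rpow_mul hx0.le]
    congr 1
    push_cast
    ring
  have hYpos : 0 < Y := Real.rpow_pos_of_pos hx0 _
  have hYbig : 120960 ≤ Y := by
    have h1 : 13440 ≤ δ * Y := by nlinarith
    nlinarith
  have hY1 : 1 ≤ Y := by linarith
  have hY4 : Y ≤ Y ^ 4 := by
    calc Y = Y ^ 1 := (pow_one Y).symm
      _ ≤ Y ^ 4 := pow_le_pow_right₀ hY1 (by norm_num)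
  set W : ℝ := (x : ℝ) ^ (1 - 4 * δ) with hW
  have hW1 : 1 ≤ W := Real.one_le_rpow hx1 (by linarith)
  have hZW : (x : ℝ) ^ (1 - 3 * δ) = W * Y ^ 4 := by
    rw [← hXY, hW, ← Real.rpow_add hx0]
    congr 1
    ring
  have hsq : √(x : ℝ) ≤ W := by
    rw [Real.sqrt_eq_rpow, hW]
    exact Real.rpow_le_rpow_of_exponent_le hx1 (by linarith)
  set A : ℕ := ⌊(x : ℝ) ^ δ⌋₊ with hA
  set z : ℕ := ⌊(x : ℝ) ^ (1 - 3 * δ)⌋₊ with hz
  have hAle : (A : ℝ) ≤ Y ^ 4 := by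
    rw [← hXY]
    exact Nat.floor_le (by positivity)
  have hAge : Y ^ 4 / 2 ≤ A := by
    have h1 : (x : ℝ) ^ δ < A + 1 := Nat.lt_floor_add_one _
    rw [hXY] at h1
    linarith
  have hzle : (z : ℝ) ≤ W * Y ^ 4 := by
    rw [← hZW]
    exact Nat.floor_le (by positivity)
  have hWY : Y ^ 4 ≤ W * Y ^ 4 := by
    have : 0 ≤ Y ^ 4 := by positivity
    nlinarith
  have hzge : W * Y ^ 4 / 2 ≤ z := by
    have h1 : (x : ℝ) ^ (1 - 3 * δ) < z + 1 := Nat.lt_floor_add_one _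
    rw [hZW] at h1
    linarith
  have hApos : (0 : ℝ) < A := by
    have : 0 < Y ^ 4 / 2 := by positivity
    linarith
  have hzpos : (0 : ℝ) < z := by
    have : 0 < W * Y ^ 4 / 2 := by positivity
    linarith
  have hAz : (A : ℝ) ^ 2 * z ≤ (x : ℝ) ^ (1 - δ) := by
    have h1 : (x : ℝ) ^ (1 - δ) = (Y ^ 4) ^ 2 * (W * Y ^ 4) := by
      rw [← hZW, ← hXY, ← Real.rpow_natCast, ← Real.rpow_mul hx0.le, ← Real.rpow_add hx0]
      congr 1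
      push_cast
      ring
    rw [h1]
    exact mul_le_mul (pow_le_pow_left₀ hApos.le hAle 2) hzle hzpos.le (by positivity)
  have hAz0 : 0 < (A : ℝ) ^ 2 * z := by positivity
  have hm3 : (m : ℝ) ^ 3 ≤ Y ^ 3 := pow_le_pow_left₀ (by linarith) hmx 3
  have hm2 : (m : ℝ) ^ 2 ≤ Y ^ 2 := pow_le_pow_left₀ (by linarith) hmx 2
  refine ⟨?_, ?_, ?_, ?_, ?_, ?_, ?_⟩
  · have : (0 : ℕ) < A := by exact_mod_cast hApos
    omega
  · refine Nat.le_floor ?_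
    rw [hZW]
    linarith
  · have h1 : (A : ℝ) ^ 2 * z ≤ x := by
      refine hAz.trans ?_
      conv_rhs => rw [← Real.rpow_one (x : ℝ)]
      exact Real.rpow_le_rpow_of_exponent_le hx1 (by linarith)
    exact_mod_cast h1
  · rw [← Real.log_rpow hx0]
    refine Real.log_le_log (by positivity) ?_
    rw [le_div_iff₀ hAz0]
    calc (x : ℝ) ^ δ * ((A : ℝ) ^ 2 * z) ≤ (x : ℝ) ^ δ * (x : ℝ) ^ (1 - δ) :=
          mul_le_mul_of_nonneg_left hAz (by positivity)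
      _ = x := by
          rw [← Real.rpow_add hx0]
          have : δ + (1 - δ) = 1 := by ring
          rw [this, Real.rpow_one]
  · refine Nat.le_floor ?_
    rw [hXY]
    push_cast
    have : 0 ≤ Y ^ 3 := by positivity
    nlinarith
  · rw [div_le_div_iff₀ hApos (by positivity)]
    have h1 : 6720 * (m : ℝ) ^ 3 * Real.log x ≤ δ * A := by
      have h2 : δ * (Y ^ 4 / 2) ≤ δ * A := mul_le_mul_of_nonneg_left hAge hδ.le
      have h3 : 6720 * (m : ℝ) ^ 3 * Real.log x ≤ 6720 * Y ^ 3 * (1 + Real.log x) :=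
        mul_le_mul (by linarith) (by linarith) hlog.le (by positivity)
      have h4 : 6720 * Y ^ 3 * (1 + Real.log x) ≤ δ * (Y ^ 4 / 2) := by
        have h5 : (13440 * (1 + Real.log x)) * (Y ^ 3 / 2) ≤ (δ * Y) * (Y ^ 3 / 2) :=
          mul_le_mul_of_nonneg_right hP (by positivity)
        have h6 : (δ * Y) * (Y ^ 3 / 2) = δ * (Y ^ 4 / 2) := by ring
        rw [h6] at h5
        linarith
      linarith
    calc 28 * (m : ℝ) * Real.log x ^ 2 * (240 * (m : ℝ) ^ 2)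
        = Real.log x * (6720 * (m : ℝ) ^ 3 * Real.log x) := by ring
      _ ≤ Real.log x * (δ * A) := mul_le_mul_of_nonneg_left h1 hlog.le
      _ = δ * Real.log x * A := by ring
  · rw [le_div_iff₀ (by positivity)]
    have h1 : W + 2 * √(x : ℝ) ≤ 3 * W := by linarith
    have h2 : (W + 2 * √(x : ℝ)) * (480 * (m : ℝ) ^ 2 * (1 + Real.log x)) ≤
        (3 * W) * (480 * Y ^ 2 * (1 + Real.log x)) := by
      refine mul_le_mul h1 ?_ (by positivity) (by positivity)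
      exact mul_le_mul_of_nonneg_right (by linarith) (by positivity)
    have h3 : (3 * W) * (480 * Y ^ 2 * (1 + Real.log x)) ≤ (W * Y ^ 4 / 2) * δ := by
      have h4 : (13440 * (1 + Real.log x)) * (W * Y ^ 3 / 2) ≤ (δ * Y) * (W * Y ^ 3 / 2) :=
        mul_le_mul_of_nonneg_right hP (by positivity)
      have h5 : (δ * Y) * (W * Y ^ 3 / 2) = (W * Y ^ 4 / 2) * δ := by ring
      have h6 : Y ^ 2 ≤ Y ^ 3 := pow_le_pow_right₀ hY1 (by norm_num)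
      have h7 : (3 * W) * (480 * Y ^ 2 * (1 + Real.log x)) ≤
          (3 * W) * (480 * Y ^ 3 * (1 + Real.log x)) :=
        mul_le_mul_of_nonneg_left
          (mul_le_mul_of_nonneg_right (by linarith) (by positivity)) (by positivity)
      have h8 : (3 * W) * (480 * Y ^ 3 * (1 + Real.log x)) ≤
          (13440 * (1 + Real.log x)) * (W * Y ^ 3 / 2) := by
        have h9 : 0 ≤ W * Y ^ 3 * (1 + Real.log x) := by positivity
        nlinarith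
      linarith
    have h4 : (W * Y ^ 4 / 2) * δ ≤ z * δ := mul_le_mul_of_nonneg_right hzge hδ.le
    linarith

end TwR
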