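import Pool.Agent.W_aaa0df_h42.ConvA

/-! The weighted sum: lower bound and identity. -/

set_option autoImplicit false

namespace TwR

open Finset ArithmeticFunction

variable {χ : ℕ → ℝ} {m : ℕ}

theorem lowa_sumsq (R : ℕ) :
    ∑ k ∈ Ioc 0 R, (k : ℝ) ^ 2 = (R : ℝ) * (R + 1) * (2 * R + 1) / 6 := by
  induction R with
  | zero => simp
  | succ n ih =>
    rw [Finset.sum_Ioc_succ_top (Nat.zero_le n), ih]
    push_cast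
    ring

/-- `n ↦ n χ(n)` -/
noncomputable def lowa_A1 (χ : ℕ → ℝ) : ArithmeticFunction ℝ := ⟨fun n => (n : ℝ) * X χ n, by simp⟩

/-- `n ↦ n` -/
noncomputable def lowa_A2 : ArithmeticFunction ℝ := ⟨fun n => (n : ℝ), by simp⟩

theorem lowa_mul (χ : ℕ → ℝ) (n : ℕ) : (lowa_A1 χ * lowa_A2) n = (n : ℝ) * f χ n := by
  unfold f
  rw [ArithmeticFunction.mul_apply, ArithmeticFunction.mul_apply, Finset.mul_sum]
  refine Finset.sum_congr rfl fun p hp => ?_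
  rw [Nat.mem_divisorsAntidiagonal] at hp
  obtain ⟨h1, h2⟩ := hp
  have hp2 : p.2 ≠ 0 := by
    intro h0
    apply h2
    rw [← h1, h0, mul_zero]
  have hz : (ArithmeticFunction.zeta : ArithmeticFunction ℝ) p.2 = 1 := by
    simp [hp2]
  have e1 : lowa_A1 χ p.1 = (p.1 : ℝ) * X χ p.1 := rfl
  have e2 : lowa_A2 p.2 = (p.2 : ℝ) := rfl
  rw [hz, e1, e2, ← h1]
  push_cast
  ring

/-- `∑_{n ≤ R²} f(n) (R² - n) ≥ ∑_{k ≤ R} (R² - k²) = 2R³/3 - R²/2 - R/6 ≥ R³ / 2` for `R ≥ 4`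
(only squares, `f (k²) ≥ 1`, `f ≥ 0`). -/
theorem weighted_lower (h : RChar χ m) {R : ℕ} (hR : 4 ≤ R) :
    (R : ℝ) ^ 3 / 2 ≤ ∑ n ∈ Ioc 0 (R ^ 2), f χ n * ((R : ℝ) ^ 2 - (n : ℝ)) := by
  have hsub : (Ioc 0 R).image (fun k => k ^ 2) ⊆ Ioc 0 (R ^ 2) := by
    intro n hn
    obtain ⟨k, hk, rfl⟩ := mem_image.mp hn
    rw [mem_Ioc] at hk ⊢
    exact ⟨pow_pos hk.1 2, Nat.pow_le_pow_left hk.2 2⟩
  have h1 : ∑ n ∈ (Ioc 0 R).image (fun k => k ^ 2), f χ n * ((R : ℝ) ^ 2 - (n : ℝ)) ≤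
      ∑ n ∈ Ioc 0 (R ^ 2), f χ n * ((R : ℝ) ^ 2 - (n : ℝ)) := by
    refine Finset.sum_le_sum_of_subset_of_nonneg hsub fun n hn _ => ?_
    rw [mem_Ioc] at hn
    refine mul_nonneg (f_nonneg h n) ?_
    have : (n : ℝ) ≤ ((R ^ 2 : ℕ) : ℝ) := by exact_mod_cast hn.2
    push_cast at this
    linarith
  have hinj : Set.InjOn (fun k : ℕ => k ^ 2) (Ioc 0 R : Finset ℕ) := by
    intro a _ b _ hab
    exact Nat.pow_left_injective (by norm_num : (2 : ℕ) ≠ 0) hab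
  rw [Finset.sum_image hinj] at h1
  have h2 : ∑ k ∈ Ioc 0 R, ((R : ℝ) ^ 2 - (k : ℝ) ^ 2) ≤
      ∑ k ∈ Ioc 0 R, f χ (k ^ 2) * ((R : ℝ) ^ 2 - ((k ^ 2 : ℕ) : ℝ)) := by
    refine Finset.sum_le_sum fun k hk => ?_
    rw [mem_Ioc] at hk
    have h3 : 1 ≤ f χ (k ^ 2) := f_sq h (by omega)
    have h4 : (k : ℝ) ^ 2 ≤ (R : ℝ) ^ 2 := by
      have : (k : ℝ) ≤ (R : ℝ) := by exact_mod_cast hk.2
      exact pow_le_pow_left₀ (Nat.cast_nonneg k) this 2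
    push_cast
    nlinarith
  have h5 : ∑ k ∈ Ioc 0 R, ((R : ℝ) ^ 2 - (k : ℝ) ^ 2) =
      (R : ℝ) * (R : ℝ) ^ 2 - (R : ℝ) * (R + 1) * (2 * R + 1) / 6 := by
    rw [Finset.sum_sub_distrib, lowa_sumsq, Finset.sum_const, Nat.card_Ioc, Nat.sub_zero,
      nsmul_eq_mul]
  have h6 : (4 : ℝ) ≤ R := by exact_mod_cast hR
  have h7 : (R : ℝ) ^ 3 / 2 ≤ (R : ℝ) * (R : ℝ) ^ 2 - (R : ℝ) * (R + 1) * (2 * R + 1) / 6 := by
    have h8 : 0 ≤ (R : ℝ) * ((R : ℝ) ^ 2 - 3 * R - 1) := by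
      refine mul_nonneg (by linarith) ?_
      nlinarith
    nlinarith
  calc (R : ℝ) ^ 3 / 2 ≤ (R : ℝ) * (R : ℝ) ^ 2 - (R : ℝ) * (R + 1) * (2 * R + 1) / 6 := h7
    _ = ∑ k ∈ Ioc 0 R, ((R : ℝ) ^ 2 - (k : ℝ) ^ 2) := h5.symm
    _ ≤ _ := h2
    _ ≤ _ := h1

/-- `∑_{n ≤ N} f(n) (N - n) = ∑_{a ≤ N} χ(a) ∑_{b ≤ N / a} (N - a b)`. (Write `f n (N - n)` as the
sum over the divisors pairs `(a, b)` of `n`; as in `ArithmeticFunction.sum_Ioc_mul_eq_sum_sum`.) -/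
theorem weighted_eq (h : RChar χ m) (N : ℕ) :
    ∑ n ∈ Ioc 0 N, f χ n * ((N : ℝ) - (n : ℝ))
      = ∑ a ∈ Ioc 0 N, χ a * ∑ b ∈ Ioc 0 (N / a), ((N : ℝ) - (a : ℝ) * (b : ℝ)) := by
  have h1 : ∑ n ∈ Ioc 0 N, f χ n = ∑ a ∈ Ioc 0 N, χ a * ∑ b ∈ Ioc 0 (N / a), (1 : ℝ) := by
    unfold f
    rw [ArithmeticFunction.sum_Ioc_mul_eq_sum_sum]
    refine Finset.sum_congr rfl fun a _ => ?_
    rw [X_apply h]
    congr 1
    refine Finset.sum_congr rfl fun b hb => ?_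
    rw [mem_Ioc] at hb
    have hb0 : b ≠ 0 := by omega
    simp [hb0]
  have h2 : ∑ n ∈ Ioc 0 N, (n : ℝ) * f χ n =
      ∑ a ∈ Ioc 0 N, (a : ℝ) * χ a * ∑ b ∈ Ioc 0 (N / a), (b : ℝ) := by
    have h3 := ArithmeticFunction.sum_Ioc_mul_eq_sum_sum (lowa_A1 χ) lowa_A2 N
    rw [Finset.sum_congr rfl fun n _ => lowa_mul χ n] at h3
    rw [h3]
    refine Finset.sum_congr rfl fun a _ => ?_
    have e1 : lowa_A1 χ a = (a : ℝ) * X χ a := rfl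
    rw [e1, X_apply h]
    rfl
  have h3 : ∑ n ∈ Ioc 0 N, f χ n * ((N : ℝ) - (n : ℝ)) =
      (N : ℝ) * ∑ n ∈ Ioc 0 N, f χ n - ∑ n ∈ Ioc 0 N, (n : ℝ) * f χ n := by
    rw [Finset.mul_sum, ← Finset.sum_sub_distrib]
    refine Finset.sum_congr rfl fun n _ => ?_
    ring
  rw [h3, h1, h2, Finset.mul_sum, ← Finset.sum_sub_distrib]
  refine Finset.sum_congr rfl fun a _ => ?_
  rw [Finset.sum_sub_distrib, ← Finset.mul_sum, Finset.sum_const, Finset.sum_const, nsmul_eq_mul,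
    nsmul_eq_mul]
  ring

end TwR
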