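import Pool.Agent.W_aaa0df_h42.Defs

/-! The inner sum `g(a) = ∑_{b ≤ N/a} (N - a b)`. -/

set_option autoImplicit false

namespace TwR

open Finset ArithmeticFunction

variable {χ : ℕ → ℝ} {m : ℕ}

theorem LowB_closed (N a : ℝ) (q : ℕ) :
    (∑ b ∈ Ioc 0 q, (N - a * (b : ℝ))) = q * N - a * (q * (q + 1)) / 2 := by
  induction q with
  | zero => simp
  | succ q ih =>
    rw [Finset.sum_Ioc_succ_top (Nat.zero_le q), ih]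
    push_cast
    ring

/-- the exact value, with `r = N % a` -/
theorem LowB_exact {N a : ℕ} (ha : 0 < a) :
    (∑ b ∈ Ioc 0 (N / a), ((N : ℝ) - (a : ℝ) * (b : ℝ)))
      = (N : ℝ) ^ 2 / (2 * (a : ℝ)) - (N : ℝ) / 2 +
        ((N % a : ℕ) : ℝ) * ((a : ℝ) - ((N % a : ℕ) : ℝ)) / (2 * (a : ℝ)) := by
  have ha' : (0 : ℝ) < a := by exact_mod_cast ha
  have h1 : (a : ℝ) * ((N / a : ℕ) : ℝ) + ((N % a : ℕ) : ℝ) = (N : ℝ) := by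
    exact_mod_cast Nat.div_add_mod N a
  rw [LowB_closed]
  have h2 : ((N % a : ℕ) : ℝ) = (N : ℝ) - (a : ℝ) * ((N / a : ℕ) : ℝ) := by linarith
  rw [h2]
  field_simp
  ring

theorem LowB_rem {N a : ℕ} (ha : 0 < a) :
    0 ≤ ((N % a : ℕ) : ℝ) ∧ ((N % a : ℕ) : ℝ) < (a : ℝ) ∧ ((N % a : ℕ) : ℝ) ≤ (N : ℝ) :=
  ⟨Nat.cast_nonneg _, by exact_mod_cast Nat.mod_lt N ha, by exact_mod_cast Nat.mod_le N a⟩

/-- With `q = ⌊N/a⌋`, `N/a = q + θ`: `g(a) = q N - a q (q+1) / 2 = N²/(2a) - N/2 + (a/2) θ (1-θ)`. -/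
theorem inner_approx {N a : ℕ} (ha : 0 < a) :
    |(∑ b ∈ Ioc 0 (N / a), ((N : ℝ) - (a : ℝ) * (b : ℝ)))
      - ((N : ℝ) ^ 2 / (2 * (a : ℝ)) - (N : ℝ) / 2)| ≤ (a : ℝ) / 8 := by
  have ha' : (0 : ℝ) < a := by exact_mod_cast ha
  obtain ⟨h1, h2, -⟩ := LowB_rem (N := N) ha
  rw [LowB_exact ha]
  set r : ℝ := ((N % a : ℕ) : ℝ)
  have h3 : (N : ℝ) ^ 2 / (2 * (a : ℝ)) - (N : ℝ) / 2 + r * ((a : ℝ) - r) / (2 * (a : ℝ)) -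
      ((N : ℝ) ^ 2 / (2 * (a : ℝ)) - (N : ℝ) / 2) = r * ((a : ℝ) - r) / (2 * (a : ℝ)) := by ring
  have h4 : 0 ≤ r * ((a : ℝ) - r) / (2 * (a : ℝ)) :=
    div_nonneg (mul_nonneg h1 (by linarith)) (by positivity)
  rw [h3, abs_of_nonneg h4, div_le_iff₀ (by positivity)]
  nlinarith [sq_nonneg (2 * r - a)]

theorem inner_le {N a : ℕ} (ha : 0 < a) :
    (∑ b ∈ Ioc 0 (N / a), ((N : ℝ) - (a : ℝ) * (b : ℝ))) ≤ (N : ℝ) ^ 2 / (2 * (a : ℝ)) := by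
  have ha' : (0 : ℝ) < a := by exact_mod_cast ha
  obtain ⟨h1, h2, h3⟩ := LowB_rem (N := N) ha
  rw [LowB_exact ha]
  set r : ℝ := ((N % a : ℕ) : ℝ)
  have h4 : r * ((a : ℝ) - r) / (2 * (a : ℝ)) ≤ (N : ℝ) / 2 := by
    rw [div_le_iff₀ (by positivity)]
    nlinarith [mul_nonneg h1 h1, mul_le_mul_of_nonneg_right h3 ha'.le]
  linarith

theorem LowB_term {N a b : ℕ} (hb : b ≤ N / a) : 0 ≤ (N : ℝ) - (a : ℝ) * (b : ℝ) := by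
  have h1 : a * b ≤ N := (Nat.mul_le_mul_left a hb).trans (Nat.mul_div_le N a)
  have h2 : (a : ℝ) * (b : ℝ) ≤ (N : ℝ) := by exact_mod_cast h1
  linarith

theorem inner_anti {N a : ℕ} (ha : 0 < a) :
    (∑ b ∈ Ioc 0 (N / (a + 1)), ((N : ℝ) - ((a + 1 : ℕ) : ℝ) * (b : ℝ)))
      ≤ ∑ b ∈ Ioc 0 (N / a), ((N : ℝ) - (a : ℝ) * (b : ℝ)) := by
  calc (∑ b ∈ Ioc 0 (N / (a + 1)), ((N : ℝ) - ((a + 1 : ℕ) : ℝ) * (b : ℝ)))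
      ≤ ∑ b ∈ Ioc 0 (N / (a + 1)), ((N : ℝ) - (a : ℝ) * (b : ℝ)) := by
        refine Finset.sum_le_sum fun b _ => ?_
        push_cast
        nlinarith [(Nat.cast_nonneg b : (0 : ℝ) ≤ b)]
    _ ≤ ∑ b ∈ Ioc 0 (N / a), ((N : ℝ) - (a : ℝ) * (b : ℝ)) := by
        refine Finset.sum_le_sum_of_subset_of_nonneg ?_ fun b hb _ => LowB_term (mem_Ioc.1 hb).2
        exact Finset.Ioc_subset_Ioc le_rfl (Nat.div_le_div_left (Nat.le_succ a) ha)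

theorem inner_nonneg {N a : ℕ} (ha : 0 < a) :
    0 ≤ ∑ b ∈ Ioc 0 (N / a), ((N : ℝ) - (a : ℝ) * (b : ℝ)) :=
  Finset.sum_nonneg fun _ hb => LowB_term (mem_Ioc.1 hb).2

end TwR
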