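import Pool.Agent.W_aaa0df_h42.Abel
import Pool.Agent.W_aaa0df_h42.LowA
import Pool.Agent.W_aaa0df_h42.LowB

/-! Lower bound for `L A = ∑_{a ≤ A} χ a / a`. -/

set_option autoImplicit false

namespace TwR

open Finset ArithmeticFunction

variable {χ : ℕ → ℝ} {m : ℕ}

/-- Changing `A` beyond `A₀` changes `L` by at most `m / A₀` (`abel_antitone`, `RChar.sum`). -/
theorem L_tail (h : RChar χ m) {A₀ A : ℕ} (h0 : 1 ≤ A₀) (hA : A₀ ≤ A) :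
    |L χ A - L χ A₀| ≤ m / A₀ := by
  have hm0 : (0 : ℝ) ≤ m := Nat.cast_nonneg m
  have hA0 : (0 : ℝ) < A₀ := by exact_mod_cast h0
  rcases hA.eq_or_lt with rfl | hlt
  · rw [sub_self, abs_zero]
    positivity
  · have h1 := abel_antitone (u := χ) (g := fun a : ℕ => 1 / (a : ℝ)) (M := (m : ℝ))
      (a := A₀ + 1) (b := A + 1) (by omega) (fun c _ _ => h.sum _ _)
      (fun i hi _ => by
        have hi0 : (0 : ℝ) < i := by
          have : 0 < i := by omega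
          exact_mod_cast this
        push_cast
        exact one_div_le_one_div_of_le hi0 (by linarith)) (fun i hi _ => by positivity)
    have h2 : L χ A - L χ A₀ = ∑ n ∈ Ico (A₀ + 1) (A + 1), χ n * (1 / (n : ℝ)) := by
      unfold L
      have h3 : Ioc 0 A = Ioc 0 A₀ ∪ Ico (A₀ + 1) (A + 1) := by
        ext x
        simp only [mem_Ico, mem_Ioc, mem_union]
        omega
      have h4 : Disjoint (Ioc 0 A₀) (Ico (A₀ + 1) (A + 1)) := by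
        rw [disjoint_left]
        intro x
        simp only [mem_Ico, mem_Ioc]
        omega
      rw [h3, sum_union h4, add_sub_cancel_left]
      refine sum_congr rfl fun n _ => ?_
      rw [mul_one_div]
    rw [h2]
    refine h1.trans ?_
    rw [mul_one_div]
    refine div_le_div_of_nonneg_left hm0 hA0 ?_
    push_cast
    linarith

/-- The terms with `a ≤ A₀`. -/
theorem lowC_first (h : RChar χ m) (N A₀ : ℕ) :
    ∑ a ∈ Ioc 0 A₀, χ a * ∑ b ∈ Ioc 0 (N / a), ((N : ℝ) - (a : ℝ) * (b : ℝ))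
      ≤ (N : ℝ) ^ 2 / 2 * L χ A₀ + (N : ℝ) / 2 * m + (A₀ : ℝ) * (A₀ + 1) / 16 := by
  have h1 : ∀ a ∈ Ioc 0 A₀, χ a * ∑ b ∈ Ioc 0 (N / a), ((N : ℝ) - (a : ℝ) * (b : ℝ))
      ≤ (N : ℝ) ^ 2 / 2 * (χ a / a) - (N : ℝ) / 2 * χ a + (a : ℝ) / 8 := by
    intro a ha
    rw [mem_Ioc] at ha
    have ha0 : (a : ℝ) ≠ 0 := by
      have := ha.1
      positivity
    have h2 := inner_approx (N := N) ha.1
    have h3 := h.abs_le a
    set g := ∑ b ∈ Ioc 0 (N / a), ((N : ℝ) - (a : ℝ) * (b : ℝ)) with hg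
    set e := g - ((N : ℝ) ^ 2 / (2 * (a : ℝ)) - (N : ℝ) / 2) with he
    have h4 : χ a * e ≤ (a : ℝ) / 8 := by
      calc χ a * e ≤ |χ a * e| := le_abs_self _
        _ = |χ a| * |e| := abs_mul _ _
        _ ≤ 1 * ((a : ℝ) / 8) := mul_le_mul h3 h2 (abs_nonneg _) zero_le_one
        _ = (a : ℝ) / 8 := one_mul _
    have h5 : χ a * g = χ a * e + ((N : ℝ) ^ 2 / 2 * (χ a / a) - (N : ℝ) / 2 * χ a) := by
      rw [he]
      field_simp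
      ring
    rw [h5]
    linarith
  refine (sum_le_sum h1).trans ?_
  rw [sum_add_distrib, sum_sub_distrib, ← mul_sum, ← mul_sum]
  have h6 : |∑ a ∈ Ioc 0 A₀, χ a| ≤ m := by
    have h7 := h.sum 1 (A₀ + 1)
    have h8 : Ico 1 (A₀ + 1) = Ioc 0 A₀ := by
      ext x
      simp only [mem_Ico, mem_Ioc]
      omega
    rwa [h8] at h7
  have h9 : ∑ a ∈ Ioc 0 A₀, (a : ℝ) / 8 = (A₀ : ℝ) * (A₀ + 1) / 16 := by
    clear h1 h6
    induction A₀ with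
    | zero => simp
    | succ n ih =>
      rw [← Finset.insert_Ioc_right_eq_Ioc_add_one (by omega), sum_insert (by simp), ih]
      push_cast
      ring
  rw [h9]
  have h10 : -((N : ℝ) / 2 * ∑ a ∈ Ioc 0 A₀, χ a) ≤ (N : ℝ) / 2 * m := by
    have h11 := (abs_le.1 h6).1
    have h12 : (0 : ℝ) ≤ (N : ℝ) / 2 := by positivity
    nlinarith
  unfold L
  linarith

/-- The terms with `a > A₀`. -/
theorem lowC_second (h : RChar χ m) {N A₀ : ℕ} (hN : A₀ < N) :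
    ∑ a ∈ Ioc A₀ N, χ a * ∑ b ∈ Ioc 0 (N / a), ((N : ℝ) - (a : ℝ) * (b : ℝ))
      ≤ m * ((N : ℝ) ^ 2 / (2 * ((A₀ : ℝ) + 1))) := by
  have h1 := abel_antitone (u := χ)
    (g := fun a : ℕ => ∑ b ∈ Ioc 0 (N / a), ((N : ℝ) - (a : ℝ) * (b : ℝ))) (M := (m : ℝ))
    (a := A₀ + 1) (b := N + 1) (by omega) (fun c _ _ => h.sum _ _)
    (fun i hi _ => inner_anti (by omega)) (fun i hi _ => inner_nonneg (by omega))
  have h2 := inner_le (N := N) (a := A₀ + 1) (by omega)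
  have h3 : Ico (A₀ + 1) (N + 1) = Ioc A₀ N := by
    ext x
    simp only [mem_Ico, mem_Ioc]
    omega
  rw [h3] at h1
  refine (le_abs_self _).trans (h1.trans ?_)
  refine mul_le_mul_of_nonneg_left ?_ (Nat.cast_nonneg m)
  push_cast at h2
  push_cast
  exact h2

/-- `L A ≥ 1/(120 m²)` for `A ≥ 160 m³`. Take `R = 40 m²`, `N = R²`, `A₀ = 4 m R = 160 m³` (`≤ N`).
By `weighted_lower`, `weighted_eq`, `inner_approx` (for `a ≤ A₀`), `inner_le`, `inner_anti`,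
`inner_nonneg` and `abel_antitone` (for `a > A₀`):
`R³/2 ≤ (N²/2) L A₀ + m N / 2 + A₀ (A₀ + 1)/16 + m N² / (2 A₀)
      ≤ (R⁴/2) L A₀ + R³/80 + R³/20 + R³/8`,
so `L A₀ ≥ 5/(8R) = 1/(64 m²)`; then `L_tail`: `1/64 - 1/160 ≥ 1/120`. -/
theorem L_lower (h : RChar χ m) {A : ℕ} (hA : 160 * m ^ 3 ≤ A) :
    1 / (120 * (m : ℝ) ^ 2) ≤ L χ A := by
  have hm := h.pos
  have hM : (1 : ℝ) ≤ m := by exact_mod_cast hm
  have hM0 : (0 : ℝ) < m := by linarith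
  set R : ℕ := 40 * m ^ 2 with hR
  set A₀ : ℕ := 160 * m ^ 3 with hA0
  have hR4 : 4 ≤ R := by
    have : 1 ≤ m ^ 2 := Nat.one_le_pow _ _ hm
    omega
  have hm3 : 1 ≤ m ^ 3 := Nat.one_le_pow _ _ hm
  have hA01 : 1 ≤ A₀ := by omega
  have hAN : A₀ < R ^ 2 := by
    have h1 : m ^ 3 ≤ m ^ 4 := Nat.pow_le_pow_right hm (by norm_num)
    have h2 : R ^ 2 = 1600 * m ^ 4 := by
      rw [hR]
      ring
    rw [h2]
    omega
  have h1 := weighted_lower h hR4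
  have h2 := weighted_eq h (R ^ 2)
  have h3 : ∑ n ∈ Ioc 0 (R ^ 2), f χ n * ((R : ℝ) ^ 2 - (n : ℝ))
      = ∑ n ∈ Ioc 0 (R ^ 2), f χ n * (((R ^ 2 : ℕ) : ℝ) - (n : ℝ)) := by
    push_cast
    rfl
  have h4 : Ioc 0 (R ^ 2) = Ioc 0 A₀ ∪ Ioc A₀ (R ^ 2) := by
    ext x
    simp only [mem_Ioc, mem_union]
    omega
  have h5 : Disjoint (Ioc 0 A₀) (Ioc A₀ (R ^ 2)) := by
    rw [disjoint_left]
    intro x
    simp only [mem_Ioc]
    omega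
  have h6 : ∑ a ∈ Ioc 0 (R ^ 2), χ a * ∑ b ∈ Ioc 0 (R ^ 2 / a),
        (((R ^ 2 : ℕ) : ℝ) - (a : ℝ) * (b : ℝ))
      = (∑ a ∈ Ioc 0 A₀, χ a * ∑ b ∈ Ioc 0 (R ^ 2 / a),
        (((R ^ 2 : ℕ) : ℝ) - (a : ℝ) * (b : ℝ)))
      + ∑ a ∈ Ioc A₀ (R ^ 2), χ a * ∑ b ∈ Ioc 0 (R ^ 2 / a),
        (((R ^ 2 : ℕ) : ℝ) - (a : ℝ) * (b : ℝ)) := by
    conv_lhs => rw [h4]
    exact sum_union h5
  have h7 := lowC_first h (R ^ 2) A₀
  have h8 := lowC_second h hAN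
  rw [h3, h2, h6] at h1
  have h9 : (R : ℝ) ^ 3 / 2 ≤ ((R ^ 2 : ℕ) : ℝ) ^ 2 / 2 * L χ A₀ + ((R ^ 2 : ℕ) : ℝ) / 2 * m
      + (A₀ : ℝ) * (A₀ + 1) / 16 + m * (((R ^ 2 : ℕ) : ℝ) ^ 2 / (2 * ((A₀ : ℝ) + 1))) := by
    linarith
  have h10 : m * (((R ^ 2 : ℕ) : ℝ) ^ 2 / (2 * ((A₀ : ℝ) + 1))) ≤ 8000 * (m : ℝ) ^ 6 := by
    have h11 : m * (((R ^ 2 : ℕ) : ℝ) ^ 2 / (2 * ((A₀ : ℝ)))) = 8000 * (m : ℝ) ^ 6 := by
      rw [hR, hA0]
      push_cast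
      field_simp
      ring
    rw [← h11]
    refine mul_le_mul_of_nonneg_left ?_ hM0.le
    refine div_le_div_of_nonneg_left (by positivity) ?_ (by linarith)
    have : (0 : ℝ) < A₀ := by exact_mod_cast hA01
    linarith
  have h12 : 21590 * (m : ℝ) ^ 6 ≤ 1280000 * (m : ℝ) ^ 8 * L χ A₀ := by
    have e1 : (R : ℝ) ^ 3 / 2 = 32000 * (m : ℝ) ^ 6 := by
      rw [hR]
      push_cast
      ring
    have e2 : ((R ^ 2 : ℕ) : ℝ) ^ 2 / 2 * L χ A₀ = 1280000 * (m : ℝ) ^ 8 * L χ A₀ := by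
      rw [hR]
      push_cast
      ring
    have e3 : ((R ^ 2 : ℕ) : ℝ) / 2 * m = 800 * (m : ℝ) ^ 5 := by
      rw [hR]
      push_cast
      ring
    have e4 : (A₀ : ℝ) * (A₀ + 1) / 16 = 1600 * (m : ℝ) ^ 6 + 10 * (m : ℝ) ^ 3 := by
      rw [hA0]
      push_cast
      ring
    rw [e1, e2, e3, e4] at h9
    have e5 : (m : ℝ) ^ 5 ≤ (m : ℝ) ^ 6 := pow_le_pow_right₀ hM (by norm_num)
    have e6 : (m : ℝ) ^ 3 ≤ (m : ℝ) ^ 6 := pow_le_pow_right₀ hM (by norm_num)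
    linarith
  have h13 : 21590 ≤ 1280000 * ((m : ℝ) ^ 2 * L χ A₀) := by
    have e7 : (m : ℝ) ^ 6 * 21590 ≤ (m : ℝ) ^ 6 * (1280000 * ((m : ℝ) ^ 2 * L χ A₀)) := by
      calc (m : ℝ) ^ 6 * 21590 = 21590 * (m : ℝ) ^ 6 := by ring
        _ ≤ 1280000 * (m : ℝ) ^ 8 * L χ A₀ := h12
        _ = (m : ℝ) ^ 6 * (1280000 * ((m : ℝ) ^ 2 * L χ A₀)) := by ring
    exact le_of_mul_le_mul_left e7 (by positivity)
  have h14 := (abs_le.1 (L_tail h hA01 hA)).1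
  have h15 : (m : ℝ) ^ 2 * ((m : ℝ) / (A₀ : ℝ)) = 1 / 160 := by
    rw [hA0]
    push_cast
    field_simp
  have h16 : 1 / 120 ≤ (m : ℝ) ^ 2 * L χ A := by
    have h17 : (m : ℝ) ^ 2 * (L χ A₀ - (m : ℝ) / (A₀ : ℝ)) ≤ (m : ℝ) ^ 2 * L χ A :=
      mul_le_mul_of_nonneg_left (by linarith) (by positivity)
    rw [mul_sub, h15] at h17
    linarith
  rw [div_le_iff₀ (by positivity)]
  linarith

end TwR
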