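import Pool.Agent.W_aaa0df_h42.MainC
import Pool.Agent.W_aaa0df_h42.LowC
import Pool.Agent.W_aaa0df_h42.FinA

/-! Many primes with `χ p = s`. -/

set_option autoImplicit false

namespace TwR

open Finset ArithmeticFunction

variable {χ : ℕ → ℝ} {m : ℕ}

/-- For every `δ ∈ (0, 1/9)` there is `x₀` such that for `x ≥ x₀`, every real character with
parameter `m ≤ x^(δ/4)` and both signs `s`: at least `x^(1-4δ)` primes `p ≤ x` have `χ p = s`.
(`main_ineq` with `A = ⌊x^δ⌋`, `z = ⌊x^(1-3δ)⌋`, `L_lower`, `params`: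
`δ log x / (120 m²) ≤ 28 m log² x / A + 2 log x (1 + log x) (|S| + 2 √x)/z`.) -/
theorem many_primes {δ : ℝ} (hδ : 0 < δ) (hδ9 : δ < 1 / 9) :
    ∃ x₀ : ℕ, ∀ x : ℕ, x₀ ≤ x → ∀ (χ : ℕ → ℝ) (m : ℕ), RChar χ m →
      (m : ℝ) ≤ (x : ℝ) ^ (δ / 4) → ∀ s : ℝ, s = 1 ∨ s = -1 →
      (x : ℝ) ^ (1 - 4 * δ) ≤ (S χ s 0 x).card := by
  obtain ⟨x₀, hx3, hpar⟩ := params hδ hδ9
  refine ⟨x₀, fun x hx χ m h hm s hs => ?_⟩
  obtain ⟨p1, p2, p3, p4, p5, p6, p7⟩ := hpar x hx m h.pos hm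
  have hxx : 3 ≤ x := hx3.trans hx
  generalize ⌊(x : ℝ) ^ δ⌋₊ = A at *
  generalize ⌊(x : ℝ) ^ (1 - 3 * δ)⌋₊ = z at *
  have hmain := main_ineq h hs p1 p2 p3 hxx
  have hL := L_lower h p5
  have hx1 : (1 : ℝ) < x := by
    have : (3 : ℝ) ≤ x := by exact_mod_cast hxx
    linarith
  have hlog : 0 < Real.log x := Real.log_pos hx1
  have hm0 : (0 : ℝ) < m := by exact_mod_cast h.pos
  have hz0 : (0 : ℝ) < z := by exact_mod_cast (lt_of_lt_of_le h.pos p2)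
  have h1 : 1 / (120 * (m : ℝ) ^ 2) * (δ * Real.log x) ≤
      L χ A * Real.log ((x : ℝ) / (A ^ 2 * z)) := by
    refine mul_le_mul hL p4 (by positivity) ?_
    exact le_trans (by positivity) hL
  have h2 : δ * Real.log x / (240 * (m : ℝ) ^ 2) ≤
      2 * Real.log x * (1 + Real.log x) * ((S χ s z x).card + 2 * √x) / z := by
    have h3 : 1 / (120 * (m : ℝ) ^ 2) * (δ * Real.log x) =
        δ * Real.log x / (240 * (m : ℝ) ^ 2) + δ * Real.log x / (240 * (m : ℝ) ^ 2) := by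
      field_simp
      ring
    linarith
  have h4 : z * δ / (480 * (m : ℝ) ^ 2 * (1 + Real.log x)) ≤ (S χ s z x).card + 2 * √x := by
    rw [div_le_iff₀ (by positivity)]
    rw [div_le_div_iff₀ (by positivity) hz0] at h2
    have h5 : Real.log x * (z * δ) ≤
        Real.log x * (((S χ s z x).card + 2 * √x) * (480 * (m : ℝ) ^ 2 * (1 + Real.log x))) := by
      linarith
    exact le_of_mul_le_mul_left h5 hlog
  have h6 : (x : ℝ) ^ (1 - 4 * δ) ≤ (S χ s z x).card := by linarith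
  refine h6.trans ?_
  have h7 : S χ s z x ⊆ S χ s 0 x := by
    unfold S
    intro p hp
    rw [Finset.mem_filter, Finset.mem_Ioc] at hp ⊢
    exact ⟨⟨by omega, hp.1.2⟩, hp.2⟩
  exact_mod_cast Finset.card_le_card h7

end TwR
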