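import Pool.Agent.W_aaa0df_h42.Defs

/-! A value `-1` of the Jacobi symbol. -/

set_option autoImplicit false

namespace TwR

open Finset ArithmeticFunction

variable {χ : ℕ → ℝ} {m : ℕ}

/-- For squarefree `e ≠ 1` there is an odd `n` with `(e | n) = -1`. (Odd prime `q ∣ e`, `e = q e'`,
`q ∤ e'`: take `n ≡ 1 mod 8 |e'|` and `n` a non-residue mod `q`; then `(e' | n) = (e' | 1) = 1` by
`jacobiSym.mod_right` and `(q | n) = (n | q) = -1` by
`jacobiSym.quadratic_reciprocity_one_mod_four`. Otherwise `e ∈ {-1, 2, -2}`: `n = 3, 3, 5`.) -/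
theorem exists_neg {e : ℤ} (he : Squarefree e) (h1 : e ≠ 1) :
    ∃ n : ℕ, n % 2 = 1 ∧ jacobiSym e n = -1 := by
  by_cases hq : ∃ q : ℕ, q.Prime ∧ q ≠ 2 ∧ (q : ℤ) ∣ e
  · obtain ⟨q, hqp, hq2, e', rfl⟩ := hq
    have hqf : Fact q.Prime := ⟨hqp⟩
    have hqe : ¬ (q : ℤ) ∣ e' := by
      intro h
      have h2 := he q (mul_dvd_mul_left _ h)
      exact (Nat.prime_iff_prime_int.1 hqp).not_isUnit h2
    have hqodd : Odd q := hqp.odd_of_ne_two hq2
    obtain ⟨a, ha⟩ : ∃ a : ℕ, jacobiSym (a : ℤ) q = -1 := by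
      obtain ⟨b, hb⟩ := FiniteField.exists_nonsquare (F := ZMod q) (by
        rw [ZMod.ringChar_zmod_n]
        exact hq2)
      refine ⟨b.val, ?_⟩
      apply ZMod.nonsquare_iff_jacobiSym_eq_neg_one.2
      rw [Int.cast_natCast, ZMod.natCast_zmod_val]
      exact hb
    have hcop : Nat.Coprime q (8 * e'.natAbs) := by
      rw [hqp.coprime_iff_not_dvd, hqp.dvd_mul]
      rintro (h | h)
      · have h3 : q ∣ 2 ^ 3 := h
        have h4 := hqp.dvd_of_dvd_pow h3
        exact hq2 ((Nat.prime_dvd_prime_iff_eq hqp Nat.prime_two).1 h4)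
      · exact hqe (Int.natCast_dvd.2 h)
    obtain ⟨n, hn1, hn2⟩ := Nat.chineseRemainder hcop a 1
    have hn8 : n ≡ 1 [MOD 8] := hn2.of_mul_right _
    have hn4 : n % 4 = 1 := by
      have : n % 8 = 1 := hn8
      omega
    have hne : n ≡ 1 [MOD 4 * e'.natAbs] := by
      have h3 : 8 * e'.natAbs = 2 * (4 * e'.natAbs) := by ring
      rw [h3] at hn2
      exact hn2.of_mul_left _
    have hnodd : Odd n := Nat.odd_iff.2 (by omega)
    refine ⟨n, by omega, ?_⟩
    have h3 : jacobiSym e' n = 1 := by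
      have h4 : n % (4 * e'.natAbs) = 1 % (4 * e'.natAbs) := hne
      rw [jacobiSym.mod_right e' hnodd, h4, ← jacobiSym.mod_right e' odd_one, jacobiSym.one_right]
    have h4 : jacobiSym (q : ℤ) n = -1 := by
      rw [← jacobiSym.quadratic_reciprocity_one_mod_four hn4 hqodd, ← ha]
      apply jacobiSym.mod_left'
      have h5 : n % q = a % q := hn1
      exact_mod_cast h5
    rw [jacobiSym.mul_left, h3, h4, mul_one]
  · push Not at hq
    have hdvd : ∀ p : ℕ, p.Prime → p ∣ e.natAbs → p = 2 := by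
      intro p hp hpe
      by_contra hcon
      exact hq p hp hcon (Int.natCast_dvd.2 hpe)
    have hsq : Squarefree e.natAbs := Int.squarefree_natAbs.2 he
    have hcases : e.natAbs = 1 ∨ e.natAbs = 2 := by
      by_cases h2 : 2 ∣ e.natAbs
      · right
        obtain ⟨t, ht⟩ := h2
        have ht1 : t = 1 := by
          rw [Nat.eq_one_iff_not_exists_prime_dvd]
          intro p hp hpt
          have hp2 := hdvd p hp (by rw [ht]; exact dvd_mul_of_dvd_right hpt _)
          subst hp2
          have h3 := hsq 2 (by rw [ht]; exact mul_dvd_mul_left _ hpt)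
          exact Nat.prime_two.not_isUnit h3
        rw [ht, ht1]
      · left
        rw [Nat.eq_one_iff_not_exists_prime_dvd]
        intro p hp hpt
        have hp2 := hdvd p hp hpt
        subst hp2
        exact h2 hpt
    have he4 : e = -1 ∨ e = 2 ∨ e = -2 := by omega
    rcases he4 with rfl | rfl | rfl
    · exact ⟨3, by norm_num, by norm_num⟩
    · exact ⟨3, by norm_num, by norm_num⟩
    · exact ⟨5, by norm_num, by norm_num⟩

end TwR
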