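import Pool.Agent.W_aaa0df_h42.JacA

/-! Multiplicativity, periodicity and mean value of `chi e`. -/

set_option autoImplicit false

namespace TwR

open Finset ArithmeticFunction

variable {χ : ℕ → ℝ} {m : ℕ}

theorem chi_mul (e : ℤ) (a b : ℕ) : chi e (a * b) = chi e a * chi e b := by
  unfold chi
  by_cases ha : Even a
  · rw [if_pos (ha.mul_right b), if_pos ha, zero_mul]
  · by_cases hb : Even b
    · rw [if_pos (hb.mul_left a), if_pos hb, mul_zero]
    · have hab : ¬ Even (a * b) := by
        rw [Nat.even_mul]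
        tauto
      have ha0 : a ≠ 0 := by
        rintro rfl
        exact ha Even.zero
      have hb0 : b ≠ 0 := by
        rintro rfl
        exact hb Even.zero
      rw [if_neg hab, if_neg ha, if_neg hb, jacobiSym.mul_right' e ha0 hb0]
      push_cast
      rfl

/-- `jacobiSym.mod_right`. -/
theorem chi_periodic {e : ℤ} (he : e ≠ 0) (n : ℕ) : chi e (n + 4 * e.natAbs) = chi e n := by
  have _ := he
  have h4 : Even (4 * e.natAbs) := ⟨2 * e.natAbs, by ring⟩
  have h1 : Even (n + 4 * e.natAbs) ↔ Even n := by
    rw [Nat.even_add]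
    tauto
  unfold chi
  by_cases hn : Even n
  · rw [if_pos (h1.2 hn), if_pos hn]
  · have hn' : ¬ Even (n + 4 * e.natAbs) := fun h => hn (h1.1 h)
    rw [if_neg hn, if_neg hn', jacobiSym.mod_right e (Nat.not_even_iff_odd.1 hn'),
      jacobiSym.mod_right e (Nat.not_even_iff_odd.1 hn), Nat.add_mod_right]

/-- the sum over a period vanishes: with `u` from `exists_neg` (coprime to `4 e`, as
`(e | u) ≠ 0` and `u` is odd), `n ↦ u n` permutes the residues modulo `4 |e|`. -/
theorem chi_sum_period {e : ℤ} (he : Squarefree e) (h1 : e ≠ 1) (a : ℕ) :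
    ∑ n ∈ Ico a (a + 4 * e.natAbs), chi e n = 0 := by
  have he0 : e ≠ 0 := he.ne_zero
  obtain ⟨u, hu, hJ⟩ := exists_neg he h1
  have hN : 0 < 4 * e.natAbs := by
    have := Int.natAbs_pos.2 he0
    omega
  have hper : Function.Periodic (chi e) (4 * e.natAbs) := chi_periodic he0
  have hcop : Nat.Coprime (4 * e.natAbs) u := by
    have h2 : e.gcd u = 1 := by
      by_contra hcon
      have hu0 : u ≠ 0 := by omega
      have := (jacobiSym.eq_zero_iff (a := e) (b := u)).2 ⟨hu0, hcon⟩
      rw [this] at hJ
      norm_num at hJ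
    have h3 : Nat.Coprime 4 u := by
      have h4 : Nat.Coprime 2 u := by
        rw [Nat.prime_two.coprime_iff_not_dvd]
        omega
      have h5 : (4 : ℕ) = 2 ^ 2 := by norm_num
      rw [h5]
      exact h4.pow_left 2
    exact Nat.Coprime.mul_left h3 h2
  have hchiu : chi e u = -1 := by
    unfold chi
    have : ¬ Even u := by
      rw [Nat.even_iff]
      omega
    rw [if_neg this, hJ]
    norm_num
  have hsum : ∑ n ∈ Ico a (a + 4 * e.natAbs), chi e n = ∑ n ∈ range (4 * e.natAbs), chi e n := by
    rw [← Nat.image_Ico_mod a (4 * e.natAbs), Finset.sum_image (Nat.mod_injOn_Ico a _)]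
    exact Finset.sum_congr rfl fun n _ => (hper.map_mod_nat n).symm
  rw [hsum]
  generalize 4 * e.natAbs = M at *
  have himg : (range M).image (fun n => (u * n) % M) = range M := by
    refine Finset.eq_of_subset_of_card_le ?_ ?_
    · intro x hx
      obtain ⟨n, _, rfl⟩ := Finset.mem_image.1 hx
      exact Finset.mem_range.2 (Nat.mod_lt _ hN)
    · rw [Finset.card_image_of_injOn]
      intro n hn n' hn' hh
      have h2 : u * n ≡ u * n' [MOD M] := hh
      have h3 := Nat.ModEq.cancel_left_of_coprime hcop h2
      exact Nat.ModEq.eq_of_lt_of_lt h3 (Finset.mem_range.1 hn) (Finset.mem_range.1 hn')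
  have hinj : Set.InjOn (fun n => (u * n) % M) (range M : Finset ℕ) := by
    intro n hn n' hn' hh
    have h2 : u * n ≡ u * n' [MOD M] := hh
    have h3 := Nat.ModEq.cancel_left_of_coprime hcop h2
    exact Nat.ModEq.eq_of_lt_of_lt h3 (Finset.mem_range.1 hn) (Finset.mem_range.1 hn')
  have h5 : ∑ n ∈ range M, chi e n = - ∑ n ∈ range M, chi e n := by
    calc ∑ n ∈ range M, chi e n = ∑ n ∈ (range M).image (fun n => (u * n) % M), chi e n := by
          rw [himg]
      _ = ∑ n ∈ range M, chi e ((u * n) % M) := Finset.sum_image hinj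
      _ = ∑ n ∈ range M, - chi e n := by
          refine Finset.sum_congr rfl fun n _ => ?_
          rw [hper.map_mod_nat, chi_mul, hchiu]
          ring
      _ = - ∑ n ∈ range M, chi e n := by rw [Finset.sum_neg_distrib]
  linarith

end TwR
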