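import Pool.Agent.W_aaa0df_h42.JacB

/-! `chi e` is an `RChar`. -/

set_option autoImplicit false

namespace TwR

open Finset ArithmeticFunction

variable {χ : ℕ → ℝ} {m : ℕ}

theorem JacC_val (e : ℤ) (n : ℕ) : chi e n = 0 ∨ chi e n = 1 ∨ chi e n = -1 := by
  unfold chi
  by_cases hn : Even n
  · left
    rw [if_pos hn]
  · rw [if_neg hn]
    rcases jacobiSym.trichotomy e n with h | h | h
    · left
      rw [h]
      norm_num
    · right; left
      rw [h]
      norm_num
    · right; right
      rw [h]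
      norm_num

theorem JacC_abs (e : ℤ) (n : ℕ) : |chi e n| ≤ 1 := by
  rcases JacC_val e n with h | h | h <;> simp [h]

theorem JacC_sum {e : ℤ} (he : Squarefree e) (h1 : e ≠ 1) (L : ℕ) :
    ∀ a b : ℕ, b - a ≤ L → |∑ n ∈ Ico a b, chi e n| ≤ ((4 * e.natAbs : ℕ) : ℝ) := by
  have hN : 0 < 4 * e.natAbs := by
    have := Int.natAbs_pos.2 he.ne_zero
    omega
  induction L using Nat.strong_induction_on with
  | _ L ih =>
    intro a b hab
    by_cases hlt : b - a < 4 * e.natAbs
    · calc |∑ n ∈ Ico a b, chi e n| ≤ ∑ n ∈ Ico a b, |chi e n| := Finset.abs_sum_le_sum_abs _ _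
        _ ≤ ∑ n ∈ Ico a b, (1 : ℝ) := Finset.sum_le_sum fun n _ => JacC_abs e n
        _ = ((b - a : ℕ) : ℝ) := by
            rw [Finset.sum_const, Nat.card_Ico, nsmul_eq_mul, mul_one]
        _ ≤ _ := by exact_mod_cast hlt.le
    · have h2 : ∑ n ∈ Ico a b, chi e n = ∑ n ∈ Ico (a + 4 * e.natAbs) b, chi e n := by
        rw [← Finset.sum_Ico_consecutive (chi e) (Nat.le_add_right a (4 * e.natAbs))
          (by omega : a + 4 * e.natAbs ≤ b), chi_sum_period he h1 a, zero_add]
      rw [h2]
      exact ih (b - (a + 4 * e.natAbs)) (by omega) _ _ le_rfl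

theorem chi_rchar {e : ℤ} (he : Squarefree e) (h1 : e ≠ 1) : RChar (chi e) (4 * e.natAbs) := by
  have he0 := Int.natAbs_pos.2 he.ne_zero
  refine ⟨?_, ?_, chi_mul e, JacC_val e, fun a b => JacC_sum he h1 _ a b le_rfl, by omega, ?_⟩
  · unfold chi
    rw [if_pos Even.zero]
  · unfold chi
    rw [if_neg (by decide), jacobiSym.one_right]
    norm_num
  · intro p hp hchi
    by_cases hev : Even p
    · have : p = 2 := (hp.even_iff).1 hev
      omega
    · unfold chi at hchi
      rw [if_neg hev] at hchi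
      have h2 : jacobiSym e p = 0 := by exact_mod_cast hchi
      have h3 := (jacobiSym.eq_zero_iff.1 h2).2
      have h4 : p ∣ e.natAbs := by
        by_contra hcon
        apply h3
        have h5 : Nat.Coprime p e.natAbs := (hp.coprime_iff_not_dvd).2 hcon
        exact h5.symm
      have := Nat.le_of_dvd he0 h4
      omega

end TwR
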