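import Pool.Agent.W_aaa0df_h42.MainDefs
import Pool.Agent.W_aaa0df_h42.ConvC
import Pool.Agent.W_aaa0df_h42.AppA
import Pool.Agent.W_aaa0df_h42.AppB
import Pool.Agent.W_aaa0df_h42.AppC

/-! The balance. -/

set_option autoImplicit false

namespace TwR

open Finset ArithmeticFunction

variable {χ : ℕ → ℝ} {m : ℕ}

/-- For `A z ≤ y`: `y (L log y - L - (1 - s) K - L M) = T(y) + O(...)`.
`∑_{l ≤ y} (1 + s χ(l)) Λ(l) F(y/l) = y (L log y - L - (1 - s) K) + E` with
`|E| ≤ A (1 + 2 log y) + 3 m (y/A) log y` by `conv_log`, `conv_chi`, `log_approx`, `chi_approx`, and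
`∑_{l ≤ z} (1 + s χ(l)) Λ(l) F(y/l) = y L M + E'` with
`|E'| ≤ ∑_{l ≤ z} 2 Λ(l) (A + m y/(l A)) ≤ 2 A z log z + 2 m (y/A) log z (1 + log z)` by `F_approx`
(`Λ(l) ≤ log l ≤ log z`, `∑_{l ≤ z} 1/l ≤ 1 + log z`). -/
theorem balance (h : RChar χ m) {s : ℝ} (hs : s = 1 ∨ s = -1) {A z y : ℕ} (hA : 1 ≤ A)
    (hz : 1 ≤ z) (hy : A * z ≤ y) :
    |y * (L χ A * Real.log y - L χ A - (1 - s) * K χ A - L χ A * MM χ s z) - T χ s z y|
      ≤ A * (1 + 2 * Real.log y) + 3 * m * ((y : ℝ) / A) * Real.log y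
        + 2 * A * z * Real.log z
        + 2 * m * ((y : ℝ) / A) * Real.log z * (1 + Real.log z) := by
  have hzy : z ≤ y := (Nat.le_mul_of_pos_left z hA).trans hy
  have hAy : A ≤ y := (Nat.le_mul_of_pos_right A hz).trans hy
  have hA0 : (0 : ℝ) < A := by exact_mod_cast hA
  have hz0 : (0 : ℝ) < z := by exact_mod_cast hz
  have hlz : 0 ≤ Real.log z := Real.log_nonneg (by exact_mod_cast hz)
  have hyA : 0 ≤ (y : ℝ) / A := div_nonneg (Nat.cast_nonneg y) hA0.le
  have hm0 : (0 : ℝ) ≤ m := Nat.cast_nonneg m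
  have hss : |s| = 1 := by rcases hs with h1 | h1 <;> rw [h1] <;> simp
  -- the whole sum
  have h1 := log_approx h hA hAy
  have h2 := chi_approx h hA hAy
  rw [← conv_log h y] at h1
  rw [← conv_chi h y] at h2
  set P : ℝ := ∑ l ∈ Ioc 0 y, vonMangoldt l * F χ (y / l) with hP
  set Q : ℝ := ∑ l ∈ Ioc 0 y, χ l * vonMangoldt l * F χ (y / l) with hQ
  have h3 : P + s * Q = (∑ l ∈ Ioc 0 z, (1 + s * χ l) * vonMangoldt l * F χ (y / l)) +
      T χ s z y := by
    have h4 : P + s * Q = ∑ l ∈ Ioc 0 y, (1 + s * χ l) * vonMangoldt l * F χ (y / l) := by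
      rw [hP, hQ, Finset.mul_sum, ← Finset.sum_add_distrib]
      exact Finset.sum_congr rfl fun l _ => by ring
    rw [h4, T, ← Finset.sum_Ioc_consecutive _ (Nat.zero_le z) hzy]
  set W : ℝ := ∑ l ∈ Ioc 0 z, (1 + s * χ l) * vonMangoldt l * F χ (y / l) with hW
  -- the small part
  have h5 : |W - y * (L χ A * MM χ s z)| ≤ 2 * A * z * Real.log z
        + 2 * m * ((y : ℝ) / A) * Real.log z * (1 + Real.log z) := by
    have h6 : W - y * (L χ A * MM χ s z) =
        ∑ l ∈ Ioc 0 z, (1 + s * χ l) * vonMangoldt l *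
          (F χ (y / l) - (y : ℝ) / l * L χ A) := by
      rw [hW, MM, Finset.mul_sum, Finset.mul_sum, ← Finset.sum_sub_distrib]
      refine Finset.sum_congr rfl fun l _ => ?_
      ring
    rw [h6]
    have h7 : ∀ l ∈ Ioc 0 z, |(1 + s * χ l) * vonMangoldt l *
          (F χ (y / l) - (y : ℝ) / l * L χ A)| ≤
        2 * Real.log z * (A + m * ((y : ℝ) / A) * (l : ℝ)⁻¹) := by
      intro l hl
      rw [Finset.mem_Ioc] at hl
      have hl0 : (0 : ℝ) < l := by exact_mod_cast hl.1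
      have e1 : |1 + s * χ l| ≤ 2 := by
        have e2 : |s * χ l| ≤ 1 := by
          rw [abs_mul, hss, one_mul]
          rcases h.val l with h8 | h8 | h8 <;> rw [h8] <;> simp
        have := abs_le.1 e2
        rw [abs_le]
        constructor <;> linarith
      have e3 : |vonMangoldt l| ≤ Real.log z := by
        rw [abs_of_nonneg vonMangoldt_nonneg]
        refine vonMangoldt_le_log.trans ?_
        exact Real.log_le_log hl0 (by exact_mod_cast hl.2)
      have e4 : |F χ (y / l) - (y : ℝ) / l * L χ A| ≤ A + m * ((y : ℝ) / A) * (l : ℝ)⁻¹ := by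
        have e5 : A ≤ y / l := by
          rw [Nat.le_div_iff_mul_le hl.1]
          exact (Nat.mul_le_mul_left A hl.2).trans hy
        refine (F_approx h hA hl.1 e5).trans (le_of_eq ?_)
        field_simp
      rw [abs_mul, abs_mul]
      have e6 : |1 + s * χ l| * |vonMangoldt l| ≤ 2 * Real.log z :=
        mul_le_mul e1 e3 (abs_nonneg _) (by norm_num)
      exact mul_le_mul e6 e4 (abs_nonneg _) (by positivity)
    refine (Finset.abs_sum_le_sum_abs _ _).trans ((Finset.sum_le_sum h7).trans ?_)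
    rw [← Finset.mul_sum, Finset.sum_add_distrib, ← Finset.mul_sum, Finset.sum_const,
      Nat.card_Ioc, nsmul_eq_mul]
    have h9 : ∑ l ∈ Ioc 0 z, (l : ℝ)⁻¹ ≤ 1 + Real.log z := by
      have h10 := harmonic_le_one_add_log z
      rw [harmonic_eq_sum_Icc] at h10
      push_cast at h10
      exact h10
    have h11 : 2 * Real.log z * (((z - 0 : ℕ) : ℝ) * A +
        m * ((y : ℝ) / A) * ∑ l ∈ Ioc 0 z, (l : ℝ)⁻¹) ≤
        2 * Real.log z * (((z - 0 : ℕ) : ℝ) * A + m * ((y : ℝ) / A) * (1 + Real.log z)) := by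
      refine mul_le_mul_of_nonneg_left ?_ (by positivity)
      have := mul_le_mul_of_nonneg_left h9 (mul_nonneg hm0 hyA)
      linarith
    refine h11.trans (le_of_eq ?_)
    rw [Nat.sub_zero]
    ring
  have h12 : y * (L χ A * Real.log y - L χ A - (1 - s) * K χ A - L χ A * MM χ s z) - T χ s z y =
      -(P - y * (L χ A * Real.log y - K χ A - L χ A)) - s * (Q - y * K χ A) +
        (W - y * (L χ A * MM χ s z)) := by
    linear_combination h3
  rw [h12]
  have h13 : |s * (Q - y * K χ A)| = |Q - y * K χ A| := by rw [abs_mul, hss, one_mul]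
  have h14 := abs_add_le (-(P - y * (L χ A * Real.log y - K χ A - L χ A)) - s * (Q - y * K χ A))
    (W - y * (L χ A * MM χ s z))
  have h15 := abs_sub (-(P - y * (L χ A * Real.log y - K χ A - L χ A))) (s * (Q - y * K χ A))
  rw [abs_neg, h13] at h15
  refine h14.trans ?_
  linarith

end TwR
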