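import Pool.Agent.W_aaa0df_h42.MainDefs
import Pool.Agent.W_aaa0df_h42.ConvB

/-! The tail `T`. -/

set_option autoImplicit false

namespace TwR

open Finset ArithmeticFunction

variable {χ : ℕ → ℝ} {m : ℕ}

theorem mainB_coef_nonneg (h : RChar χ m) {s : ℝ} (hs : s = 1 ∨ s = -1) (l : ℕ) :
    0 ≤ 1 + s * χ l := by
  rcases hs with rfl | rfl <;> rcases h.val l with e | e | e <;> rw [e] <;> norm_num

theorem mainB_coef_le (h : RChar χ m) {s : ℝ} (hs : s = 1 ∨ s = -1) (l : ℕ) :
    1 + s * χ l ≤ 2 := by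
  rcases hs with rfl | rfl <;> rcases h.val l with e | e | e <;> rw [e] <;> norm_num

theorem mainB_F_nonneg (h : RChar χ m) (N : ℕ) : 0 ≤ F χ N := by
  have h1 := F_mono h (Nat.zero_le N)
  have h2 : F χ 0 = 0 := by unfold F; simp
  rwa [h2] at h1

theorem T_nonneg (h : RChar χ m) {s : ℝ} (hs : s = 1 ∨ s = -1) (z y : ℕ) :
    0 ≤ T χ s z y := by
  unfold T
  refine Finset.sum_nonneg fun l _ => ?_
  exact mul_nonneg (mul_nonneg (mainB_coef_nonneg h hs l) vonMangoldt_nonneg)
    (mainB_F_nonneg h _)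

/-- the sum of the weights `(1 + s χ(l)) Λ(l)` over `(z, x]` -/
theorem mainB_weights (h : RChar χ m) {s : ℝ} (hs : s = 1 ∨ s = -1) {z x : ℕ} (hz : m ≤ z)
    (hx : z ≤ x) :
    ∑ l ∈ Ioc z x, (1 + s * χ l) * vonMangoldt l ≤
      2 * Real.log x * ((S χ s z x).card + 2 * √x) := by
  have hz1 : 1 ≤ z := h.pos.trans hz
  have hx1 : 1 ≤ x := hz1.trans hx
  have hx1' : (1 : ℝ) ≤ x := by exact_mod_cast hx1
  rw [← Finset.sum_filter_add_sum_filter_not (Ioc z x) (fun l => l.Prime)]
  have hP : ∑ l ∈ (Ioc z x).filter (fun l => l.Prime), (1 + s * χ l) * vonMangoldt l ≤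
      2 * Real.log x * (S χ s z x).card := by
    rw [← Finset.sum_filter_add_sum_filter_not ((Ioc z x).filter (fun l => l.Prime))
      (fun l => χ l = s)]
    have h0 : ∑ l ∈ ((Ioc z x).filter (fun l => l.Prime)).filter (fun l => ¬ χ l = s),
        (1 + s * χ l) * vonMangoldt l = 0 := by
      refine Finset.sum_eq_zero fun l hl => ?_
      rw [mem_filter, mem_filter, mem_Ioc] at hl
      obtain ⟨⟨⟨hl1, hl2⟩, hl3⟩, hl4⟩ := hl
      have hne : χ l ≠ 0 := fun e => by
        have := h.bad l hl3 e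
        omega
      have h5 : 1 + s * χ l = 0 := by
        rcases hs with rfl | rfl <;> rcases h.val l with e | e | e <;>
          first
          | exact absurd e hne
          | exact absurd e hl4
          | (rw [e]; norm_num)
      rw [h5, zero_mul]
    rw [h0, add_zero]
    have hS : ((Ioc z x).filter (fun l => l.Prime)).filter (fun l => χ l = s) = S χ s z x := by
      unfold S
      rw [Finset.filter_filter]
    rw [hS]
    have h1 : ∀ l ∈ S χ s z x, (1 + s * χ l) * vonMangoldt l ≤ 2 * Real.log x := by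
      intro l hl
      unfold S at hl
      rw [mem_filter, mem_Ioc] at hl
      obtain ⟨⟨hl1, hl2⟩, hl3, hl4⟩ := hl
      have h6 : vonMangoldt l ≤ Real.log x := by
        refine vonMangoldt_le_log.trans ?_
        exact Real.log_le_log (by exact_mod_cast hl3.pos) (by exact_mod_cast hl2)
      exact mul_le_mul (mainB_coef_le h hs l) h6 vonMangoldt_nonneg (by norm_num)
    calc ∑ l ∈ S χ s z x, (1 + s * χ l) * vonMangoldt l ≤ ∑ l ∈ S χ s z x, 2 * Real.log x :=
          Finset.sum_le_sum h1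
      _ = 2 * Real.log x * (S χ s z x).card := by
          rw [Finset.sum_const, nsmul_eq_mul]; ring
  have hN : ∑ l ∈ (Ioc z x).filter (fun l => ¬ l.Prime), (1 + s * χ l) * vonMangoldt l ≤
      2 * (2 * √x * Real.log x) := by
    calc ∑ l ∈ (Ioc z x).filter (fun l => ¬ l.Prime), (1 + s * χ l) * vonMangoldt l
        ≤ ∑ l ∈ (Ioc z x).filter (fun l => ¬ l.Prime), 2 * vonMangoldt l :=
          Finset.sum_le_sum fun l _ => mul_le_mul_of_nonneg_right (mainB_coef_le h hs l)
            vonMangoldt_nonneg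
      _ ≤ ∑ l ∈ (Ioc 0 x).filter (fun l => ¬ l.Prime), 2 * vonMangoldt l := by
          refine Finset.sum_le_sum_of_subset_of_nonneg ?_ fun l _ _ =>
            mul_nonneg (by norm_num) vonMangoldt_nonneg
          exact Finset.filter_subset_filter _ (Finset.Ioc_subset_Ioc_left (Nat.zero_le z))
      _ = 2 * (Chebyshev.psi x - Chebyshev.theta x) := by
          rw [Chebyshev.psi_sub_theta_eq_sum_not_prime, Nat.floor_natCast, Finset.mul_sum]
      _ ≤ 2 * (2 * √x * Real.log x) :=
          mul_le_mul_of_nonneg_left (Chebyshev.psi_sub_theta_le hx1') (by norm_num)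
  calc _ ≤ 2 * Real.log x * (S χ s z x).card + 2 * (2 * √x * Real.log x) := add_le_add hP hN
    _ = _ := by ring

/-- `T(x) ≤ 2 log x (1 + log x) (x / z) (|S| + 2 √x)`, `S` the primes in `(z, x]` with
`χ p = s`: `z ≥ m`, so no prime in `(z, x]` has `χ p = 0`; the terms with `l` prime, `χ l = -s`
vanish; `F(x/l) ≤ F(x/z) ≤ (x/z) (1 + log x)` (`F_mono`, `F_le`); `Λ(l) ≤ log x`; and
`ψ(x) - θ(x) ≤ 2 √x log x` (`Chebyshev.psi_sub_theta_le`, `psi_sub_theta_eq_sum_not_prime`) for
the `l` that are not prime. -/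
theorem T_le (h : RChar χ m) {s : ℝ} (hs : s = 1 ∨ s = -1) {z x : ℕ} (hz : m ≤ z)
    (hx : z ≤ x) :
    T χ s z x ≤ 2 * Real.log x * (1 + Real.log x) * ((x : ℝ) / z)
      * ((S χ s z x).card + 2 * √x) := by
  have hz1 : 1 ≤ z := h.pos.trans hz
  have hx1 : 1 ≤ x := hz1.trans hx
  have hx1' : (1 : ℝ) ≤ x := by exact_mod_cast hx1
  have hz0 : (0 : ℝ) < z := by exact_mod_cast hz1
  have hlog : 0 ≤ Real.log x := Real.log_nonneg hx1'
  have hF : F χ (x / z) ≤ ((x : ℝ) / z) * (1 + Real.log x) := by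
    refine (F_le h (x / z)).trans ?_
    have hxz : 1 ≤ x / z := Nat.div_pos hx hz1
    have h1 : (((x / z : ℕ) : ℝ)) ≤ (x : ℝ) / z := Nat.cast_div_le
    have h2 : Real.log ((x / z : ℕ) : ℝ) ≤ Real.log x :=
      Real.log_le_log (by exact_mod_cast hxz) (by exact_mod_cast Nat.div_le_self x z)
    have h3 : 0 ≤ Real.log ((x / z : ℕ) : ℝ) := Real.log_nonneg (by exact_mod_cast hxz)
    exact mul_le_mul h1 (by linarith) (by linarith) (by positivity)
  have hT : T χ s z x ≤ ∑ l ∈ Ioc z x, (1 + s * χ l) * vonMangoldt l *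
      (((x : ℝ) / z) * (1 + Real.log x)) := by
    unfold T
    refine Finset.sum_le_sum fun l hl => ?_
    rw [mem_Ioc] at hl
    refine mul_le_mul_of_nonneg_left ?_ (mul_nonneg (mainB_coef_nonneg h hs l) vonMangoldt_nonneg)
    exact (F_mono h (Nat.div_le_div_left hl.1.le hz1)).trans hF
  refine hT.trans ?_
  rw [← Finset.sum_mul]
  have h4 : 0 ≤ ((x : ℝ) / z) * (1 + Real.log x) := by positivity
  calc _ ≤ 2 * Real.log x * ((S χ s z x).card + 2 * √x) * (((x : ℝ) / z) * (1 + Real.log x)) :=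
        mul_le_mul_of_nonneg_right (mainB_weights h hs hz hx) h4
    _ = _ := by ring

end TwR
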