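import Pool.Agent.W_aaa0df_h42.MainA
import Pool.Agent.W_aaa0df_h42.MainB

/-! The main inequality. -/

set_option autoImplicit false

namespace TwR

open Finset ArithmeticFunction

variable {χ : ℕ → ℝ} {m : ℕ}

/-- the error term of `balance` is at most `12 m (log x)² / A` times `y`. -/
theorem mainC_err {A z x y : ℕ} (hm : 1 ≤ m) (hA : 1 ≤ A) (hz : 1 ≤ z) (hy : A ^ 2 * z ≤ y)
    (hyx : y ≤ x) (hx3 : 3 ≤ x) :
    (A * (1 + 2 * Real.log y) + 3 * m * ((y : ℝ) / A) * Real.log y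
        + 2 * A * z * Real.log z
        + 2 * m * ((y : ℝ) / A) * Real.log z * (1 + Real.log z)) ≤
      y * (12 * m * Real.log x ^ 2 / A) := by
  have hA0 : (1 : ℝ) ≤ A := by exact_mod_cast hA
  have hAp : (0 : ℝ) < A := by linarith
  have hz0 : (1 : ℝ) ≤ z := by exact_mod_cast hz
  have hm0 : (1 : ℝ) ≤ m := by exact_mod_cast hm
  have hyR : (A : ℝ) ^ 2 * z ≤ y := by exact_mod_cast hy
  have hyxR : (y : ℝ) ≤ x := by exact_mod_cast hyx
  have hx3R : (3 : ℝ) ≤ x := by exact_mod_cast hx3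
  have hAAz : (1 : ℝ) ≤ (A : ℝ) ^ 2 * z := by
    have : (1 : ℝ) ≤ (A : ℝ) ^ 2 := one_le_pow₀ hA0
    nlinarith
  have hy1 : (1 : ℝ) ≤ y := hAAz.trans hyR
  have hzy : (z : ℝ) ≤ y := by
    have : (1 : ℝ) ≤ (A : ℝ) ^ 2 := one_le_pow₀ hA0
    nlinarith
  set ℓ := Real.log x with hℓ
  have hℓ1 : 1 ≤ ℓ := by
    rw [hℓ, Real.le_log_iff_exp_le (by linarith)]
    exact (Real.exp_one_lt_d9.le.trans (by norm_num)).trans hx3R
  have hly : Real.log y ≤ ℓ := Real.log_le_log (by linarith) hyxR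
  have hly0 : 0 ≤ Real.log y := Real.log_nonneg hy1
  have hlz : Real.log z ≤ ℓ := Real.log_le_log (by linarith) (hzy.trans hyxR)
  have hlz0 : 0 ≤ Real.log z := Real.log_nonneg hz0
  have hAy : (A : ℝ) * z ≤ y / A := by
    rw [le_div_iff₀ hAp]
    nlinarith
  have hAy' : (A : ℝ) ≤ y / A := by
    have : (A : ℝ) ≤ A * z := by nlinarith
    linarith
  have hyA0 : 0 < (y : ℝ) / A := lt_of_lt_of_le hAp hAy'
  set Y := (y : ℝ) / A with hY
  have hℓ2 : ℓ ≤ ℓ ^ 2 := by nlinarith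
  have hml : ℓ ^ 2 ≤ m * ℓ ^ 2 := by nlinarith [sq_nonneg ℓ]
  have h1 : (A : ℝ) * (1 + 2 * Real.log y) ≤ Y * (3 * (m * ℓ ^ 2)) := by
    apply mul_le_mul hAy' _ (by linarith) hyA0.le
    nlinarith
  have h2 : 3 * m * Y * Real.log y ≤ Y * (3 * (m * ℓ ^ 2)) := by
    have : 3 * (m : ℝ) * Real.log y ≤ 3 * (m * ℓ ^ 2) := by
      have : (m : ℝ) * Real.log y ≤ m * ℓ ^ 2 :=
        mul_le_mul_of_nonneg_left (hly.trans hℓ2) (by linarith)
      linarith
    nlinarith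
  have h3 : 2 * (A : ℝ) * z * Real.log z ≤ Y * (2 * (m * ℓ ^ 2)) := by
    have h31 : 2 * Real.log z ≤ 2 * (m * ℓ ^ 2) := by linarith
    calc 2 * (A : ℝ) * z * Real.log z = (A * z) * (2 * Real.log z) := by ring
      _ ≤ Y * (2 * (m * ℓ ^ 2)) := mul_le_mul hAy h31 (by linarith) hyA0.le
  have h4 : 2 * (m : ℝ) * Y * Real.log z * (1 + Real.log z) ≤ Y * (4 * (m * ℓ ^ 2)) := by
    have h41 : Real.log z * (1 + Real.log z) ≤ 2 * ℓ ^ 2 := by nlinarith
    have h42 : (m : ℝ) * (Real.log z * (1 + Real.log z)) ≤ m * (2 * ℓ ^ 2) :=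
      mul_le_mul_of_nonneg_left h41 (by linarith)
    have h43 : Y * ((m : ℝ) * (Real.log z * (1 + Real.log z))) ≤ Y * (m * (2 * ℓ ^ 2)) :=
      mul_le_mul_of_nonneg_left h42 hyA0.le
    calc 2 * (m : ℝ) * Y * Real.log z * (1 + Real.log z)
        = 2 * (Y * ((m : ℝ) * (Real.log z * (1 + Real.log z)))) := by ring
      _ ≤ 2 * (Y * (m * (2 * ℓ ^ 2))) := by linarith
      _ = Y * (4 * (m * ℓ ^ 2)) := by ring
  have h5 : (y : ℝ) * (12 * m * ℓ ^ 2 / A) = Y * (12 * (m * ℓ ^ 2)) := by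
    rw [hY]
    ring
  rw [h5]
  nlinarith

/-- Compare `balance` at `y = x` and at `y₁ = A² z` (`T(y₁) ≥ 0`):
`L (log x - log y₁) ≤ T(x)/x + e(x)/x + e(y₁)/y₁` and each `e(y)/y ≤ 12 m (log x)²/A`
(for `A² z ≤ y ≤ x`, `log x ≥ 1`, `m ≥ 1`). -/
theorem main_ineq (h : RChar χ m) {s : ℝ} (hs : s = 1 ∨ s = -1) {A z x : ℕ} (hA : 1 ≤ A)
    (hz : m ≤ z) (hx : A ^ 2 * z ≤ x) (hx3 : 3 ≤ x) :
    L χ A * Real.log ((x : ℝ) / (A ^ 2 * z))
      ≤ 28 * m * Real.log x ^ 2 / A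
        + 2 * Real.log x * (1 + Real.log x) * ((S χ s z x).card + 2 * √x) / z := by
  have hz1 : 1 ≤ z := h.pos.trans hz
  have hAz : A * z ≤ A ^ 2 * z := by
    apply Nat.mul_le_mul_right
    nlinarith
  have hzx : z ≤ x := by
    refine le_trans ?_ hx
    have : 1 ≤ A ^ 2 := Nat.one_le_pow _ _ hA
    nlinarith
  have hA0 : (1 : ℝ) ≤ A := by exact_mod_cast hA
  have hz0 : (1 : ℝ) ≤ z := by exact_mod_cast hz1
  have hm0 : (1 : ℝ) ≤ m := by exact_mod_cast h.pos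
  have hx0 : (0 : ℝ) < x := by
    have : 0 < x := by omega
    exact_mod_cast this
  have hy0 : (0 : ℝ) < ((A ^ 2 * z : ℕ) : ℝ) := by
    have : 0 < A ^ 2 * z := Nat.mul_pos (pow_pos (by omega) 2) (by omega)
    exact_mod_cast this
  have b1 := balance h hs hA hz1 (hAz.trans hx)
  have b2 := balance h hs hA hz1 hAz
  have e1 := mainC_err h.pos hA hz1 hx le_rfl hx3
  have e2 := mainC_err h.pos hA hz1 (le_refl (A ^ 2 * z)) hx hx3
  have t1 := T_le h hs hz hzx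
  have t2 := T_nonneg h hs z (A ^ 2 * z)
  have c1 := (le_abs_self _).trans (b1.trans e1)
  have c2 := (neg_le_abs _).trans (b2.trans e2)
  have d1 : L χ A * Real.log x - L χ A - (1 - s) * K χ A - L χ A * MM χ s z ≤
      12 * m * Real.log x ^ 2 / A +
        2 * Real.log x * (1 + Real.log x) * ((S χ s z x).card + 2 * √x) / z := by
    refine le_of_mul_le_mul_left ?_ hx0
    have h1 : (x : ℝ) * (12 * m * Real.log x ^ 2 / A +
        2 * Real.log x * (1 + Real.log x) * ((S χ s z x).card + 2 * √x) / z) =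
        x * (12 * m * Real.log x ^ 2 / A) +
          2 * Real.log x * (1 + Real.log x) * ((x : ℝ) / z) * ((S χ s z x).card + 2 * √x) := by
      ring
    rw [h1]
    linarith
  have d2 : -(12 * m * Real.log x ^ 2 / A) ≤
      L χ A * Real.log ((A ^ 2 * z : ℕ) : ℝ) - L χ A - (1 - s) * K χ A - L χ A * MM χ s z := by
    refine le_of_mul_le_mul_left ?_ hy0
    linarith
  have hlog : Real.log ((x : ℝ) / (A ^ 2 * z)) = Real.log x - Real.log ((A ^ 2 * z : ℕ) : ℝ) := by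
    rw [← Real.log_div hx0.ne' hy0.ne']
    push_cast
    rfl
  rw [hlog, mul_sub]
  have h28 : 12 * m * Real.log x ^ 2 / A + 12 * m * Real.log x ^ 2 / A ≤
      28 * m * Real.log x ^ 2 / A := by
    rw [← add_div]
    apply div_le_div_of_nonneg_right _ (by linarith)
    have : 0 ≤ m * Real.log x ^ 2 := by positivity
    linarith
  linarith

end TwR
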