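import Pool.Agent.W_aaa0df_h42.Defs

/-! `M` and `T`. -/

set_option autoImplicit false

namespace TwR

open Finset ArithmeticFunction

variable {χ : ℕ → ℝ} {m : ℕ}

/-- `M = ∑_{l ≤ z} (1 + s χ(l)) Λ(l) / l`. -/
noncomputable def MM (χ : ℕ → ℝ) (s : ℝ) (z : ℕ) : ℝ :=
  ∑ l ∈ Ioc 0 z, (1 + s * χ l) * vonMangoldt l / l

/-- `T(y) = ∑_{z < l ≤ y} (1 + s χ(l)) Λ(l) F(y/l)`. -/
noncomputable def T (χ : ℕ → ℝ) (s : ℝ) (z y : ℕ) : ℝ :=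
  ∑ l ∈ Ioc z y, (1 + s * χ l) * vonMangoldt l * F χ (y / l)

end TwR
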