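import Pool.Agent.W_aaa0df_h42.FinB
import Pool.Agent.W_aaa0df_h42.JacC
import Pool.Agent.W_aaa0df_h42.ArB
import Pool.Agent.W_aaa0df_h42.ArC

/-! The two theorems. -/

set_option autoImplicit false

namespace TwR

open Finset MPaaa0df Filter Topology

/-- eventually `C * y ^ a ≤ y ^ b` for `a < b` -/
theorem ev_rpow {a b : ℝ} (hab : a < b) (C : ℝ) :
    ∀ᶠ y : ℝ in atTop, C * y ^ a ≤ y ^ b := by
  have h1 := (tendsto_rpow_atTop (sub_pos.2 hab)).eventually_ge_atTop C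
  filter_upwards [h1, eventually_gt_atTop (0 : ℝ)] with y hy hy0
  calc C * y ^ a ≤ y ^ (b - a) * y ^ a := by gcongr
    _ = y ^ b := by rw [← Real.rpow_add hy0]; congr 1; ring

theorem thmA {ε : ℝ} (hε : 0 < ε) (hε1 : ε < 1) :
    ∃ y₀ : ℝ, ∀ y : ℝ, y₀ ≤ y → ∀ (Fs : Finset ℤ) (e k : ℤ),
      (∀ d ∈ Fs, d ≠ 0 ∧ (d % 4 = 0 ∨ d % 4 = 1)) → Squarefree e → e ≠ 1 →
      |(e : ℝ)| ≤ y ^ (ε / 40) → ∏ d ∈ Fs, d = e * k ^ 2 →
      ∑ d ∈ Fs, Real.log |(d : ℝ)| ≤ y ^ (1 - ε) →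
      y ^ (1 - ε) ≤ ∑ d ∈ Fs, (splitCount d y : ℝ) := by
  obtain ⟨x₀, hx₀⟩ := many_primes (δ := ε / 9) (by positivity) (by linarith)
  -- eventual inequalities
  have e1 := ev_rpow (a := ε / 40) (b := ε / 36) (by linarith) (4 * 2 ^ (ε / 36))
  have e2 := ev_rpow (a := 1 - ε) (b := 1 - 4 * (ε / 9)) (by linarith)
    (3 * 2 ^ (1 - 4 * (ε / 9)))
  obtain ⟨y₀, hy₀⟩ := ((e1.and e2).and ((eventually_ge_atTop (2 * (x₀ : ℝ))).and
    (eventually_ge_atTop (2 : ℝ)))).exists_forall_of_atTop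
  refine ⟨y₀, fun y hy Fs e k hF he he1 hey hprod hsum => ?_⟩
  obtain ⟨⟨h1, h2⟩, h3, h4⟩ := hy₀ y hy
  -- the integer x
  obtain ⟨x, hxy, hyx⟩ : ∃ x : ℕ, (x : ℝ) < y ∧ y / 2 ≤ x := by
    refine ⟨⌈y⌉₊ - 1, ?_, ?_⟩
    · have := Nat.ceil_lt_add_one (show (0 : ℝ) ≤ y by linarith)
      have hc : 1 ≤ ⌈y⌉₊ := Nat.one_le_ceil_iff.2 (by linarith)
      push_cast [Nat.cast_sub hc]
      linarith
    · have := Nat.le_ceil y
      have hc : 1 ≤ ⌈y⌉₊ := Nat.one_le_ceil_iff.2 (by linarith)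
      push_cast [Nat.cast_sub hc]
      linarith
  have hx0 : x₀ ≤ x := by
    have : (x₀ : ℝ) ≤ x := by linarith
    exact_mod_cast this
  have he0 : e ≠ 0 := he.ne_zero
  have hchar := chi_rchar he he1
  have hy2 : (0 : ℝ) < y / 2 := by linarith
  have hm : ((4 * e.natAbs : ℕ) : ℝ) ≤ (x : ℝ) ^ (ε / 9 / 4) := by
    have ha : ((4 * e.natAbs : ℕ) : ℝ) = 4 * |(e : ℝ)| := by
      push_cast
      rw [Nat.cast_natAbs]
      push_cast
      ring
    rw [ha]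
    have hb : (x : ℝ) ^ (ε / 36) ≥ (y / 2) ^ (ε / 36) :=
      Real.rpow_le_rpow hy2.le hyx (by positivity)
    have hc : (y / 2) ^ (ε / 36) = y ^ (ε / 36) / 2 ^ (ε / 36) :=
      Real.div_rpow (by linarith) (by norm_num) _
    have hd : (4 : ℝ) * y ^ (ε / 40) ≤ y ^ (ε / 36) / 2 ^ (ε / 36) := by
      rw [le_div_iff₀ (by positivity)]
      linarith
    have : ε / 9 / 4 = ε / 36 := by ring
    rw [this]
    linarith
  have hs : (-(-1 : ℝ) ^ Fs.card) = 1 ∨ (-(-1 : ℝ) ^ Fs.card) = -1 := by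
    rcases neg_one_pow_eq_or ℝ Fs.card with h | h
    · right; rw [h]
    · left; rw [h]; norm_num
  have hmain := hx₀ x hx0 (chi e) (4 * e.natAbs) hchar hm _ hs
  have hcount := count_le (fun d hd => (hF d hd).2) (fun d hd => (hF d hd).1) hprod hxy
  have hb : (x : ℝ) ^ (1 - 4 * (ε / 9)) ≥ (y / 2) ^ (1 - 4 * (ε / 9)) :=
    Real.rpow_le_rpow hy2.le hyx (by linarith)
  have hc : (y / 2) ^ (1 - 4 * (ε / 9)) = y ^ (1 - 4 * (ε / 9)) / 2 ^ (1 - 4 * (ε / 9)) :=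
    Real.div_rpow (by linarith) (by norm_num) _
  have hd : (3 : ℝ) * y ^ (1 - ε) ≤ y ^ (1 - 4 * (ε / 9)) / 2 ^ (1 - 4 * (ε / 9)) := by
    rw [le_div_iff₀ (by positivity)]
    linarith
  linarith

theorem splitCount_mono (d : ℤ) {y y' : ℝ} (h : y ≤ y') : splitCount d y ≤ splitCount d y' := by
  unfold splitCount
  refine Set.ncard_le_ncard ?_ ?_
  · rintro p ⟨h1, h2, h3, h4⟩
    exact ⟨h1, lt_of_lt_of_le h2 h, h3, h4⟩
  · refine (Set.finite_Iio ⌈y'⌉₊).subset ?_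
    rintro p ⟨h1, h2, h3, h4⟩
    exact Nat.lt_ceil.2 h2

theorem negFund_mod {d : ℤ} (hd : NegFund d) : d ≠ 0 ∧ (d % 4 = 0 ∨ d % 4 = 1) := by
  obtain ⟨h0, h | ⟨m, h, -⟩⟩ := hd
  · exact ⟨h0.ne, Or.inr h.1⟩
  · exact ⟨h0.ne, Or.inl (by omega)⟩

theorem thmB {ε : ℝ} (hε : 0 < ε) (hε1 : ε < 1) :
    ∃ D : ℝ, ∀ d : ℤ, NegFund d → D ≤ |(d : ℝ)| →
      {d' : ℤ | NegFund d' ∧
        (∃ e k : ℤ, 0 < e ∧ (e : ℝ) ≤ Real.log |(d : ℝ)| ^ (ε / 120) ∧ d * d' = e * k ^ 2) ∧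
        (N d' : ℝ) < Real.log |(d : ℝ)| ^ (2 - ε)}.Subsingleton := by
  obtain ⟨y₀, hy₀⟩ := thmA (ε := ε / 3) (by positivity) (by linarith)
  -- eventual inequalities in `l = log |d|`
  have e1 := ev_rpow (a := 1) (b := 2 - 2 * (ε / 3)) (by linarith) 4
  have e2 := ev_rpow (a := 2 - ε) (b := 2 - 2 * (ε / 3)) (by linarith) 2
  have e3 : ∀ᶠ l : ℝ in atTop, y₀ ≤ l ^ 2 := by
    have := (tendsto_pow_atTop (α := ℝ) (n := 2) (by norm_num)).eventually_ge_atTop y₀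
    exact this
  have e4 : ∀ᶠ l : ℝ in atTop, 4 * l ^ (1 / 120 : ℝ) ≤ l ^ (1 / 2 : ℝ) :=
    ev_rpow (by norm_num) 4
  have e5 : ∀ᶠ l : ℝ in atTop, Real.log (l ^ (1 / 2 : ℝ)) ≤ l / 2 := by
    filter_upwards [eventually_ge_atTop (1 : ℝ)] with l hl
    rw [Real.log_rpow (by linarith)]
    have := Real.log_le_sub_one_of_pos (show (0 : ℝ) < l by linarith)
    linarith
  have e6 : ∀ᶠ l : ℝ in atTop, 2 ≤ Real.log (l / 2) := by
    have h : Tendsto (fun l : ℝ => Real.log (l / 2)) atTop atTop :=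
      Real.tendsto_log_atTop.comp (tendsto_id.atTop_div_const (by norm_num))
    exact h.eventually_ge_atTop 2
  obtain ⟨l₀, hl₀⟩ := ((((e1.and e2).and (e3.and e4)).and (e5.and e6)).and
    (eventually_ge_atTop (2 : ℝ))).exists_forall_of_atTop
  refine ⟨Real.exp l₀, fun d hd hD => ?_⟩
  set l := Real.log |(d : ℝ)| with hl
  have hd0 : (0 : ℝ) < |(d : ℝ)| := abs_pos.2 (by exact_mod_cast (negFund_mod hd).1)
  have hll : l₀ ≤ l := by
    rw [hl, Real.le_log_iff_exp_le hd0]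
    exact hD
  obtain ⟨⟨⟨⟨h1, h2⟩, h3, h4⟩, h5, h6⟩, h7⟩ := hl₀ l hll
  have hl1 : (1 : ℝ) ≤ l := by linarith
  have hl0 : (0 : ℝ) < l := by linarith
  rw [Real.rpow_one] at h1
  -- facts about a member of the class
  have key : ∀ d' : ℤ, NegFund d' → ∀ e k : ℤ, 0 < e → (e : ℝ) ≤ l ^ (ε / 120) →
      d * d' = e * k ^ 2 →
      l / 2 ≤ Real.log |(d' : ℝ)| ∧ Real.log |(d' : ℝ)| ≤ 2 * l := by
    intro d' hd' e k he hel hk
    have hd'0 : (0 : ℝ) < |(d' : ℝ)| := abs_pos.2 (by exact_mod_cast (negFund_mod hd').1)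
    have he0 : (0 : ℝ) < (e : ℝ) := by exact_mod_cast he
    have hel' : (e : ℝ) ≤ l ^ (1 / 120 : ℝ) :=
      hel.trans (Real.rpow_le_rpow_of_exponent_le hl1 (by linarith))
    have h4e : 4 * (e : ℝ) ≤ l ^ (1 / 2 : ℝ) := by linarith
    have hlog4 : Real.log (4 * e) ≤ l / 2 := (Real.log_le_log (by positivity) h4e).trans h5
    have a1 : |(d' : ℝ)| ≤ 4 * e * |(d : ℝ)| := by
      have := fund_le hd hd' he hk
      exact_mod_cast this
    have a2 : |(d : ℝ)| ≤ 4 * e * |(d' : ℝ)| := by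
      have := fund_le hd' hd he (k := k) (by rw [mul_comm]; exact hk)
      exact_mod_cast this
    have b1 : Real.log |(d' : ℝ)| ≤ Real.log (4 * e) + l := by
      rw [hl, ← Real.log_mul (by positivity) hd0.ne']
      exact Real.log_le_log hd'0 a1
    have b2 : l ≤ Real.log (4 * e) + Real.log |(d' : ℝ)| := by
      rw [hl, ← Real.log_mul (by positivity) hd'0.ne']
      exact Real.log_le_log hd0 a2
    constructor <;> linarith
  have thr : ∀ d' : ℤ, l / 2 ≤ Real.log |(d' : ℝ)| → l ^ 2 ≤ threshold d' := by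
    intro d' h
    unfold threshold
    have c1 : Real.log (l / 2) ≤ Real.log (Real.log |(d' : ℝ)|) :=
      Real.log_le_log (by linarith) h
    have c2 : (2 : ℝ) ≤ Real.log (Real.log |(d' : ℝ)|) := h6.trans c1
    calc l ^ 2 = (l / 2) ^ 2 * 2 ^ 2 := by ring
      _ ≤ Real.log |(d' : ℝ)| ^ 2 * Real.log (Real.log |(d' : ℝ)|) ^ 2 := by
        gcongr
  rintro d1 ⟨hd1, ⟨e1', k1, he1, hel1, hk1⟩, hN1⟩ d2 ⟨hd2, ⟨e2', k2, he2, hel2, hk2⟩, hN2⟩
  by_contra hne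
  obtain ⟨u1, v1⟩ := key d1 hd1 e1' k1 he1 hel1 hk1
  obtain ⟨u2, v2⟩ := key d2 hd2 e2' k2 he2 hel2 hk2
  have hz1 : d1 ≠ 0 := (negFund_mod hd1).1
  have hz2 : d2 ≠ 0 := (negFund_mod hd2).1
  have hz : d ≠ 0 := (negFund_mod hd).1
  obtain ⟨e, k, hesq, hk0, hek⟩ := exists_sqf (mul_ne_zero hz1 hz2)
  have hpos : 0 < d1 * d2 := mul_pos_of_neg_of_neg hd1.1 hd2.1
  have hepos : 0 < e := by
    by_contra h
    have : e * k ^ 2 ≤ 0 := mul_nonpos_of_nonpos_of_nonneg (by omega) (sq_nonneg k)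
    omega
  have he1ne : e ≠ 1 := by
    intro h
    rw [h, one_mul] at hek
    exact hne (fund_eq hd1 hd2 hek)
  have hk1' : k1 ≠ 0 := by
    rintro rfl
    have : d * d1 = 0 := by rw [hk1]; ring
    exact (mul_ne_zero hz hz1) this
  have hk2' : k2 ≠ 0 := by
    rintro rfl
    have : d * d2 = 0 := by rw [hk2]; ring
    exact (mul_ne_zero hz hz2) this
  have hdvd : e ∣ e1' * e2' := by
    refine sqf_dvd (u := k * d) (v := k1 * k2) hesq (mul_ne_zero hk1' hk2')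
      (mul_ne_zero hk0 hz) ?_
    calc e * (k * d) ^ 2 = (e * k ^ 2) * d ^ 2 := by ring
      _ = (d * d1) * (d * d2) := by rw [← hek]; ring
      _ = e1' * e2' * (k1 * k2) ^ 2 := by rw [hk1, hk2]; ring
  have hele : e ≤ e1' * e2' := Int.le_of_dvd (mul_pos he1 he2) hdvd
  have hebd : |(e : ℝ)| ≤ (l ^ 2) ^ (ε / 3 / 40) := by
    have q1 : |(e : ℝ)| = (e : ℝ) := abs_of_pos (by exact_mod_cast hepos)
    rw [q1]
    have q2 : (e : ℝ) ≤ (e1' : ℝ) * e2' := by exact_mod_cast hele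
    have q3 : (e1' : ℝ) * e2' ≤ l ^ (ε / 120) * l ^ (ε / 120) := by
      have : (0 : ℝ) ≤ (e2' : ℝ) := by exact_mod_cast he2.le
      gcongr
    have q4 : l ^ (ε / 120) * l ^ (ε / 120) = (l ^ 2) ^ (ε / 3 / 40) := by
      rw [← Real.rpow_add hl0, ← Real.rpow_natCast, ← Real.rpow_mul hl0.le]
      congr 1
      push_cast
      ring
    linarith
  have hA := hy₀ (l ^ 2) h3 {d1, d2} e k (by
      intro d' hd'
      rw [Finset.mem_insert, Finset.mem_singleton] at hd'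
      rcases hd' with rfl | rfl
      · exact negFund_mod hd1
      · exact negFund_mod hd2) hesq he1ne hebd (by rw [Finset.prod_pair hne]; exact hek) (by
      rw [Finset.sum_pair hne]
      have : (l ^ 2) ^ (1 - ε / 3) = l ^ (2 - 2 * (ε / 3)) := by
        rw [← Real.rpow_natCast, ← Real.rpow_mul hl0.le]
        congr 1
        push_cast
        ring
      rw [this]
      linarith)
  rw [Finset.sum_pair hne] at hA
  have hyy : (l ^ 2) ^ (1 - ε / 3) = l ^ (2 - 2 * (ε / 3)) := by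
    rw [← Real.rpow_natCast, ← Real.rpow_mul hl0.le]
    congr 1
    push_cast
    ring
  rw [hyy] at hA
  have s1 : (splitCount d1 (l ^ 2) : ℝ) ≤ N d1 := by
    exact_mod_cast splitCount_mono d1 (thr d1 u1)
  have s2 : (splitCount d2 (l ^ 2) : ℝ) ≤ N d2 := by
    exact_mod_cast splitCount_mono d2 (thr d2 u2)
  linarith

end TwR
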